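import Pool.Agent.Y135.SS.Gen

open Finset
open scoped Pointwise

namespace Pool.Agent.Y135.SS

/-- the vertex set of the edge with point set `A` and colour `i` -/
def ed (A : Finset ℕ) (i : ℕ) : Finset U := insert (Sum.inr i) (A.map ⟨Sum.inl, Sum.inl_injective⟩)

theorem mem_ed_inl (A : Finset ℕ) (i x : ℕ) : (Sum.inl x : U) ∈ ed A i ↔ x ∈ A := by
  unfold ed; simp

theorem mem_ed_inr (A : Finset ℕ) (i x : ℕ) : (Sum.inr x : U) ∈ ed A i ↔ x = i := by
  unfold ed; simp

theorem ed_inj {A B : Finset ℕ} {i k : ℕ} (h : ed A i = ed B k) : A = B ∧ i = k := by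
  constructor
  · ext x
    rw [← mem_ed_inl A i, h, mem_ed_inl]
  · rw [← mem_ed_inr B k, ← h, mem_ed_inr]

/-- every edge has the form `ed A i` -/
theorem eq_ed {t : ℕ} {h : Finset U} (hp : (pts h).card = t) (hc : (cls h).card = 1) :
    ∃ A i, h = ed A i ∧ A.card = t := by
  have h1 : (cls h) = h.toRight.map ⟨Sum.inr, Sum.inr_injective⟩ := by
    ext x
    unfold cls
    rw [mem_filter]
    cases x <;> simp
  have h2 : (pts h) = h.toLeft.map ⟨Sum.inl, Sum.inl_injective⟩ := by
    ext x
    unfold pts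
    rw [mem_filter]
    cases x <;> simp
  rw [h2, card_map] at hp
  have h3 : h.toRight.card = 1 := by rw [h1, card_map] at hc; exact hc
  obtain ⟨i, hi⟩ := card_eq_one.1 h3
  refine ⟨h.toLeft, i, ?_, hp⟩
  ext x
  cases x with
  | inl x => rw [mem_ed_inl]; simp
  | inr x =>
    rw [mem_ed_inr, ← mem_singleton, ← hi]; simp

theorem wt_ed (m : ℕ) (A : Finset ℕ) (i : ℕ) : wt m (ed A i) = A.card + m := by
  have hp : pts (ed A i) = A.map ⟨Sum.inl, Sum.inl_injective⟩ := by
    unfold pts ed
    ext x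
    cases x <;> simp
  have hc : cls (ed A i) = {Sum.inr i} := by
    unfold cls ed
    ext x
    cases x <;> simp
  unfold wt
  rw [hp, hc, card_map, card_singleton, mul_one]

theorem cls_ed (A : Finset ℕ) (i : ℕ) : (cls (ed A i)).card = 1 := by
  have hc : cls (ed A i) = {Sum.inr i} := by
    unfold cls ed
    ext x
    cases x <;> simp
  rw [hc, card_singleton]

theorem cls_map (A : Finset ℕ) : cls (A.map ⟨Sum.inl, Sum.inl_injective⟩ : Finset U) = ∅ := by
  unfold cls
  ext x
  cases x <;> simp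

/-- there is a colouring of the `t`-subsets of `ℕ` such that every `s`-set lies in exactly one
`t`-set of each colour, and whose automorphism group is `(t+1)`-transitive -/
theorem exists_colouring (s m t : ℕ) (hm : 1 ≤ m) (hs : s + m = t) :
    ∃ c : Set.powersetCard ℕ t → ℕ,
    (∀ i : ℕ, ∀ W : Finset ℕ, W.card = s → ∃! A : Set.powersetCard ℕ t,
      c A = i ∧ W ⊆ (A : Finset ℕ)) ∧
    ∀ a b : Fin (t + 1) ↪ ℕ, ∃ σ : Equiv.Perm ℕ,
      (∀ A B : Set.powersetCard ℕ t, c (σ • A) = c (σ • B) ↔ c A = c B) ∧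
      ∀ i, σ (a i) = b i := by
  obtain ⟨E, hE1, hE2, hE3, hE4⟩ := core t m hm
  have hmapc : ∀ A : Finset ℕ, (A.map ⟨Sum.inl, Sum.inl_injective⟩ : Finset U).card = A.card :=
    fun A => card_map _
  have hmapp : ∀ A : Finset ℕ, pts (A.map ⟨Sum.inl, Sum.inl_injective⟩ : Finset U)
      = A.map ⟨Sum.inl, Sum.inl_injective⟩ := by
    intro A
    unfold pts
    rw [filter_true_of_mem]
    intro x hx
    rw [mem_map] at hx
    obtain ⟨y, _, rfl⟩ := hx
    rfl
  have hedc : ∀ A : Set.powersetCard ℕ t, ∃ i, ed A i ∈ E := by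
    intro A
    have hA : (A : Finset ℕ).card = t := A.2
    obtain ⟨h, hh, hs'⟩ := hE2 ((A : Finset ℕ).map ⟨Sum.inl, Sum.inl_injective⟩)
      (by unfold wt; rw [hmapp, cls_map, card_empty, mul_zero, add_zero, hmapc, hA])
      (by rw [cls_map, card_empty]; omega)
    obtain ⟨B, i, rfl, hB⟩ := eq_ed (hE1 h hh).1 (hE1 h hh).2
    refine ⟨i, ?_⟩
    have h1 : (A : Finset ℕ) ⊆ B := by
      intro x hx
      rw [← mem_ed_inl B i]
      apply hs'
      rw [mem_map]
      exact ⟨x, hx, rfl⟩
    have h2 : (A : Finset ℕ) = B := eq_of_subset_of_card_le h1 (by rw [hB, hA])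
    rw [h2]; exact hh
  choose c hc using hedc
  have hcu : ∀ (A : Set.powersetCard ℕ t) (i : ℕ), ed A i ∈ E → c A = i := by
    intro A i hi
    have hA : (A : Finset ℕ).card = t := A.2
    have h1 := hE3 _ (hc A) _ hi (by
      have h2 : (A : Finset ℕ).map ⟨Sum.inl, Sum.inl_injective⟩ ⊆
          ed (A : Finset ℕ) (c A) ∩ ed (A : Finset ℕ) i :=
        subset_inter (subset_insert _ _) (subset_insert _ _)
      have h3 := wt_mono m h2
      unfold wt at h3
      rw [hmapp, cls_map, card_empty, mul_zero, add_zero, hmapc, hA] at h3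
      exact h3)
    exact (ed_inj h1).2
  refine ⟨c, ?_, ?_⟩
  · intro i W hW
    have hW1 : wt m (ed W i) = t := by rw [wt_ed, hW, hs]
    obtain ⟨h, hh, hs'⟩ := hE2 (ed W i) hW1 (by rw [cls_ed])
    obtain ⟨B, k, rfl, hB⟩ := eq_ed (hE1 h hh).1 (hE1 h hh).2
    have hk : i = k := by
      rw [← mem_ed_inr B k]
      apply hs'
      rw [mem_ed_inr]
    subst hk
    have hWB : W ⊆ B := by
      intro x hx
      rw [← mem_ed_inl B i]
      apply hs'
      rw [mem_ed_inl]
      exact hx
    refine ⟨⟨B, hB⟩, ⟨hcu ⟨B, hB⟩ i hh, hWB⟩, ?_⟩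
    rintro ⟨A, hA⟩ ⟨h1, h2⟩
    have h3 : ed A i ∈ E := by rw [← h1]; exact hc ⟨A, hA⟩
    have h4 : ed W i ⊆ ed A i := by
      unfold ed
      exact insert_subset_insert _ (map_subset_map.2 h2)
    have h5 := hE3 _ h3 _ hh (by
      have h6 := wt_mono m (subset_inter h4 hs')
      rw [hW1] at h6
      exact h6)
    apply Subtype.ext
    exact (ed_inj h5).1
  · intro a b
    obtain ⟨F, hF1, hF2, hF3⟩ := hE4 (a, b)
    have hFl : ∀ x : ℕ, ∃ y : ℕ, F (Sum.inl x) = Sum.inl y := by
      intro x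
      have := hF1 (Sum.inl x)
      rcases hFx : F (Sum.inl x) with y | y
      · exact ⟨y, rfl⟩
      · rw [hFx] at this; simp at this
    have hFr : ∀ x : ℕ, ∃ y : ℕ, F (Sum.inr x) = Sum.inr y := by
      intro x
      have := hF1 (Sum.inr x)
      rcases hFx : F (Sum.inr x) with y | y
      · rw [hFx] at this; simp at this
      · exact ⟨y, rfl⟩
    choose sg hsg using hFl
    choose r hr using hFr
    have hsinj : Function.Injective sg := by
      intro x y hxy
      have h1 : F (Sum.inl x) = F (Sum.inl y) := by rw [hsg, hsg, hxy]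
      exact Sum.inl_injective (F.injective h1)
    have hrinj : Function.Injective r := by
      intro x y hxy
      have h1 : F (Sum.inr x) = F (Sum.inr y) := by rw [hr, hr, hxy]
      exact Sum.inr_injective (F.injective h1)
    have hssurj : Function.Surjective sg := by
      intro y
      obtain ⟨u, hu⟩ := F.surjective (Sum.inl y)
      rcases u with x | x
      · rw [hsg] at hu; exact ⟨x, Sum.inl_injective hu⟩
      · rw [hr] at hu; simp at hu
    let σ : Equiv.Perm ℕ := Equiv.ofBijective sg ⟨hsinj, hssurj⟩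
    have hFed : ∀ (A : Finset ℕ) (i : ℕ), F • ed A i = ed (σ • A) (r i) := by
      intro A i
      have h1 : F • ed A i = insert (F (Sum.inr i)) (F • (A.map ⟨Sum.inl, Sum.inl_injective⟩)) :=
        image_insert _ _ _
      rw [h1, hr]
      unfold ed
      congr 1
      ext x
      constructor
      · intro hx
        obtain ⟨u, rfl⟩ := F.surjective x
        rw [mem_smul_iff, mem_map] at hx
        obtain ⟨z, hz, rfl⟩ := hx
        rw [mem_map]
        refine ⟨σ z, ?_, (hsg z).symm⟩
        exact (smul_mem_smul_finset_iff (b := z) σ).2 hz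
      · intro hx
        rw [mem_map] at hx
        obtain ⟨z, hz, rfl⟩ := hx
        obtain ⟨w, rfl⟩ := σ.surjective z
        have hw : w ∈ A := (smul_mem_smul_finset_iff (b := w) σ).1 hz
        have h2 : (⟨Sum.inl, Sum.inl_injective⟩ : ℕ ↪ U) (σ w) = F (Sum.inl w) := (hsg w).symm
        rw [h2, mem_smul_iff, mem_map]
        exact ⟨w, hw, rfl⟩
    have hcol : ∀ A : Set.powersetCard ℕ t, c (σ • A) = r (c A) := by
      intro A
      apply hcu
      have h1 : ((σ • A : Set.powersetCard ℕ t) : Finset ℕ) = σ • (A : Finset ℕ) :=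
        Set.powersetCard.coe_smul
      rw [h1, ← hFed, hF2]
      exact hc A
    refine ⟨σ, ?_, ?_⟩
    · intro A B
      rw [hcol, hcol]
      exact hrinj.eq_iff
    · intro i
      have h1 := hF3 i
      rw [hsg] at h1
      exact Sum.inl_injective h1

/-- the group of all permutations preserving the relation `having the same colour` -/
def autG {t : ℕ} (c : Set.powersetCard ℕ t → ℕ) : Subgroup (Equiv.Perm ℕ) where
  carrier := {σ | ∀ A B : Set.powersetCard ℕ t, c (σ • A) = c (σ • B) ↔ c A = c B}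
  one_mem' := by
    intro A B
    rw [one_smul, one_smul]
  mul_mem' := by
    intro σ τ hσ hτ A B
    rw [mul_smul, mul_smul, hσ, hτ]
  inv_mem' := by
    intro σ hσ A B
    have h := hσ (σ⁻¹ • A) (σ⁻¹ • B)
    rw [smul_inv_smul, smul_inv_smul] at h
    exact h.symm

end Pool.Agent.Y135.SS
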