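import Pool.Agent.Y135.SS.Pre

open Finset
open scoped Pointwise

namespace Pool.Agent.Y135.SS

/-- sort preserving permutations -/
def Srt (g : Equiv.Perm U) : Prop := ∀ u, (g u).isLeft = u.isLeft

theorem Srt.inv {g : Equiv.Perm U} (hg : Srt g) : Srt g⁻¹ := by
  intro u
  have h1 := hg (g⁻¹ u)
  have h2 : g (g⁻¹ u) = u := g.apply_symm_apply u
  rw [h2] at h1
  exact h1.symm

theorem Srt.mul {g h : Equiv.Perm U} (hg : Srt g) (hh : Srt h) : Srt (g * h) := by
  intro u
  rw [Equiv.Perm.mul_apply, hg, hh]

theorem Srt.swap {a b : U} (h : a.isLeft = b.isLeft) : Srt (Equiv.swap a b) := by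
  intro u
  rcases eq_or_ne u a with h1 | h1
  · rw [h1, Equiv.swap_apply_left]; exact h.symm
  · rcases eq_or_ne u b with h2 | h2
    · rw [h2, Equiv.swap_apply_right]; exact h
    · rw [Equiv.swap_apply_of_ne_of_ne h1 h2]

theorem mem_smul_iff (g : Equiv.Perm U) (S : Finset U) (x : U) : g x ∈ g • S ↔ x ∈ S :=
  smul_mem_smul_finset_iff (b := x) g

theorem pts_smul {g : Equiv.Perm U} (hg : Srt g) (S : Finset U) : pts (g • S) = g • pts S := by
  ext x
  obtain ⟨y, rfl⟩ := g.surjective x
  rw [mem_smul_iff]
  unfold pts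
  rw [mem_filter, mem_filter, mem_smul_iff, hg]

theorem cls_smul {g : Equiv.Perm U} (hg : Srt g) (S : Finset U) : cls (g • S) = g • cls S := by
  ext x
  obtain ⟨y, rfl⟩ := g.surjective x
  rw [mem_smul_iff]
  unfold cls
  rw [mem_filter, mem_filter, mem_smul_iff, hg]

theorem wt_smul (m : ℕ) {g : Equiv.Perm U} (hg : Srt g) (S : Finset U) :
    wt m (g • S) = wt m S := by
  unfold wt
  rw [pts_smul hg, cls_smul hg, card_smul_finset, card_smul_finset]

theorem filter_smul (g : Equiv.Perm U) (H : Finset (Finset U)) (S : Finset U) :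
    (g • H).filter (fun h => h ⊆ g • S) = g • (H.filter (fun h => h ⊆ S)) := by
  ext x
  have hx : g • (g⁻¹ • x) = x := smul_inv_smul g x
  rw [← hx, smul_mem_smul_finset_iff, mem_filter, mem_filter, smul_mem_smul_finset_iff,
    smul_finset_subset_smul_finset_iff]

theorem e_smul (g : Equiv.Perm U) (H : Finset (Finset U)) (S : Finset U) :
    e (g • H) (g • S) = e H S := by
  unfold e
  rw [filter_smul, card_smul_finset]

theorem dl_smul (m : ℕ) {g : Equiv.Perm U} (hg : Srt g) (H : Finset (Finset U)) (S : Finset U) :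
    dl m (g • H) (g • S) = dl m H S := by
  unfold dl me
  rw [e_smul, wt_smul m hg]

theorem Str.smul {m : ℕ} {H : Finset (Finset U)} {A V : Finset U} (h : Str m H A V)
    {g : Equiv.Perm U} (hg : Srt g) : Str m (g • H) (g • A) (g • V) := by
  refine ⟨smul_finset_subset_smul_finset_iff.2 h.1, ?_⟩
  intro S h1 h2
  have hS : g • (g⁻¹ • S) = S := smul_inv_smul g S
  rw [← hS] at h1 h2 ⊢
  rw [smul_finset_subset_smul_finset_iff] at h1 h2
  rw [dl_smul m hg, dl_smul m hg]
  exact h.2 _ h1 h2

theorem IsK.smul {t m : ℕ} {V : Finset U} {H : Finset (Finset U)} (hK : IsK t m V H)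
    {g : Equiv.Perm U} (hg : Srt g) : IsK t m (g • V) (g • H) := by
  have hx : ∀ S : Finset U, g • (g⁻¹ • S) = S := fun S => smul_inv_smul g S
  refine ⟨?_, ?_, ?_, ?_, ?_⟩
  · intro h hh
    rw [← hx h] at hh ⊢
    rw [smul_mem_smul_finset_iff] at hh
    rw [smul_finset_subset_smul_finset_iff]
    exact hK.sub _ hh
  · intro h hh
    rw [← hx h] at hh ⊢
    rw [smul_mem_smul_finset_iff] at hh
    rw [pts_smul hg, card_smul_finset]
    exact hK.pcard _ hh
  · intro h hh
    rw [← hx h] at hh ⊢
    rw [smul_mem_smul_finset_iff] at hh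
    rw [cls_smul hg, card_smul_finset]
    exact hK.ccard _ hh
  · intro h hh h' hh' hw
    rw [← hx h] at hh hw ⊢
    rw [← hx h'] at hh' hw ⊢
    rw [smul_mem_smul_finset_iff] at hh hh'
    rw [← smul_finset_inter, wt_smul m hg] at hw
    rw [hK.lin _ hh _ hh' hw]
  · intro S hS hp
    rw [← hx S] at hS hp ⊢
    rw [smul_finset_subset_smul_finset_iff] at hS
    rw [pts_smul hg, card_smul_finset] at hp
    rw [dl_smul m hg]
    exact hK.dim _ hS hp

theorem exists_fresh (b : Bool) (Z : Finset U) : ∃ y : U, y ∉ Z ∧ y.isLeft = b := by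
  cases b with
  | true =>
    obtain ⟨n, hn⟩ := Infinite.exists_notMem_finset Z.toLeft
    exact ⟨Sum.inl n, by simpa using hn, rfl⟩
  | false =>
    obtain ⟨n, hn⟩ := Infinite.exists_notMem_finset Z.toRight
    exact ⟨Sum.inr n, by simpa using hn, rfl⟩

theorem exists_move (Y Z : Finset U) (F : Finset U) : Disjoint F Y →
    ∃ π : Equiv.Perm U, Srt π ∧ (∀ y ∈ Y, π y = y) ∧ ∀ x ∈ F, π x ∉ Z := by
  induction F using Finset.induction_on with
  | empty =>
    intro _
    exact ⟨1, fun u => rfl, fun y _ => rfl, fun x hx => absurd hx (notMem_empty x)⟩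
  | insert x F hx ih =>
    intro hd
    rw [disjoint_insert_left] at hd
    obtain ⟨π, h1, h2, h3⟩ := ih hd.2
    obtain ⟨y, hy1, hy2⟩ := exists_fresh x.isLeft (Z ∪ Y ∪ π • F)
    simp only [mem_union, not_or] at hy1
    refine ⟨Equiv.swap (π x) y * π, (Srt.swap (by rw [h1, hy2])).mul h1, ?_, ?_⟩
    · intro z hz
      rw [Equiv.Perm.mul_apply, h2 z hz, Equiv.swap_apply_of_ne_of_ne]
      · intro h4
        apply hd.1
        have : π z = π x := by rw [h2 z hz]; exact h4
        rw [← π.injective this]; exact hz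
      · intro h4; rw [h4] at hz; exact hy1.1.2 hz
    · intro z hz
      rw [Equiv.Perm.mul_apply]
      rcases mem_insert.1 hz with hz | hz
      · rw [hz, Equiv.swap_apply_left]; exact hy1.1.1
      · rw [Equiv.swap_apply_of_ne_of_ne]
        · exact h3 z hz
        · intro h4
          apply hx
          rw [← π.injective h4]; exact hz
        · intro h4
          apply hy1.2
          rw [← h4, mem_smul_iff]; exact hz

theorem pts_erase {P : Finset U} {p : U} (hp : p ∈ P) :
    (pts (P.erase p)).card + (if p.isLeft = true then 1 else 0) = (pts P).card := by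
  unfold pts
  rw [filter_erase]
  by_cases h : p.isLeft = true
  · rw [if_pos h, card_erase_add_one (mem_filter.2 ⟨hp, h⟩)]
  · have hn : p ∉ P.filter (fun u => u.isLeft = true) := by
      intro h1
      exact h (mem_filter.1 h1).2
    rw [if_neg h, erase_eq_of_notMem hn, add_zero]

theorem cls_erase {P : Finset U} {p : U} (hp : p ∈ P) :
    (cls (P.erase p)).card + (if p.isLeft = true then 0 else 1) = (cls P).card := by
  unfold cls
  rw [filter_erase]
  by_cases h : p.isLeft = true
  · have hn : p ∉ P.filter (fun u => u.isLeft = false) := by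
      intro h1
      have h2 := (mem_filter.1 h1).2
      rw [h] at h2
      exact Bool.noConfusion h2
    rw [if_pos h, erase_eq_of_notMem hn, add_zero]
  · rw [if_neg h, card_erase_add_one (mem_filter.2 ⟨hp, by simpa using h⟩)]

/-- a sort preserving permutation which fixes `Y` and maps `P` onto `Q` -/
theorem exists_map : ∀ (n : ℕ) (Y P Q : Finset U), P.card = n → Disjoint P Y → Disjoint Q Y →
    (pts P).card = (pts Q).card → (cls P).card = (cls Q).card →
    ∃ π : Equiv.Perm U, Srt π ∧ (∀ y ∈ Y, π y = y) ∧ π • P = Q := by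
  intro n
  induction n with
  | zero =>
    intro Y P Q hn _ _ h1 h2
    have hP : P = ∅ := card_eq_zero.1 hn
    have hQ : Q = ∅ := by
      rw [hP] at h1 h2
      have h3 : pts Q = ∅ := by
        rw [← card_eq_zero, ← h1]; rfl
      have h4 : cls Q = ∅ := by
        rw [← card_eq_zero, ← h2]; rfl
      rw [← pts_union_cls Q, h3, h4, union_empty]
    refine ⟨1, fun u => rfl, fun y _ => rfl, ?_⟩
    rw [hP, hQ]; rfl
  | succ n ih =>
    intro Y P Q hn hPY hQY h1 h2
    obtain ⟨p, hp⟩ : P.Nonempty := by rw [← card_pos, hn]; omega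
    obtain ⟨q, hq, hqs⟩ : ∃ q ∈ Q, q.isLeft = p.isLeft := by
      have k1 := pts_erase hp
      have k2 := cls_erase hp
      by_cases h : p.isLeft = true
      · rw [if_pos h] at k1
        have : (pts Q).Nonempty := by rw [← card_pos]; omega
        obtain ⟨q, hq⟩ := this
        have := mem_filter.1 hq
        exact ⟨q, this.1, by rw [this.2, h]⟩
      · rw [if_neg h] at k2
        have : (cls Q).Nonempty := by rw [← card_pos]; omega
        obtain ⟨q, hq⟩ := this
        have := mem_filter.1 hq
        exact ⟨q, this.1, by rw [this.2]; simpa using h⟩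
    have hpY : p ∉ Y := disjoint_left.1 hPY hp
    have hqY : q ∉ Y := disjoint_left.1 hQY hq
    let σ : Equiv.Perm U := Equiv.swap p q
    have hσ : Srt σ := Srt.swap hqs.symm
    have hσY : ∀ y ∈ Y, σ y = y := by
      intro y hy
      show Equiv.swap p q y = y
      rw [Equiv.swap_apply_of_ne_of_ne]
      · rintro rfl; exact hpY hy
      · rintro rfl; exact hqY hy
    have hσp : σ p = q := Equiv.swap_apply_left p q
    have hE : σ • (P.erase p) = (σ • P).erase q := by
      ext x
      obtain ⟨y, rfl⟩ := σ.surjective x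
      rw [mem_smul_iff, mem_erase, mem_erase, mem_smul_iff, ← hσp]
      constructor
      · rintro ⟨h3, h4⟩; exact ⟨fun h5 => h3 (σ.injective h5), h4⟩
      · rintro ⟨h3, h4⟩; exact ⟨fun h5 => h3 (by rw [h5]), h4⟩
    have hc : (σ • (P.erase p)).card = n := by
      rw [card_smul_finset, card_erase_of_mem hp, hn]; rfl
    have hd1 : Disjoint (σ • (P.erase p)) (insert q Y) := by
      rw [disjoint_left]
      intro x hx hx'
      rcases mem_insert.1 hx' with h3 | h3
      · rw [hE, h3] at hx
        exact (notMem_erase q _) hx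
      · have h4 : σ x ∈ σ • (σ • P.erase p) := (mem_smul_iff _ _ _).2 hx
        rw [hσY x h3] at h4
        have h5 : σ • (σ • P.erase p) = P.erase p := by
          rw [smul_smul]
          have : σ * σ = 1 := Equiv.swap_mul_self p q
          rw [this, one_smul]
        rw [h5] at h4
        exact disjoint_left.1 hPY (mem_of_mem_erase h4) h3
    have hd2 : Disjoint (Q.erase q) (insert q Y) := by
      rw [disjoint_left]
      intro x hx hx'
      rcases mem_insert.1 hx' with h3 | h3
      · rw [h3] at hx; exact (notMem_erase q _) hx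
      · exact disjoint_left.1 hQY (mem_of_mem_erase hx) h3
    have k1 := pts_erase hp
    have k2 := cls_erase hp
    have k3 := pts_erase hq
    have k4 := cls_erase hq
    rw [hqs] at k3 k4
    obtain ⟨π, p1, p2, p3⟩ := ih (insert q Y) (σ • (P.erase p)) (Q.erase q) hc hd1 hd2
      (by rw [pts_smul hσ, card_smul_finset]; omega) (by rw [cls_smul hσ, card_smul_finset]; omega)
    refine ⟨π * σ, p1.mul hσ, ?_, ?_⟩
    · intro y hy
      rw [Equiv.Perm.mul_apply, hσY y hy, p2 y (mem_insert_of_mem hy)]
    · rw [mul_smul]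
      have h3 : σ • P = insert q (σ • (P.erase p)) := by
        rw [hE, insert_erase]
        rw [← hσp]
        exact (mem_smul_iff _ _ _).2 hp
      have h4 : π • (insert q (σ • (P.erase p))) = insert (π q) (π • (σ • (P.erase p))) :=
        image_insert _ _ _
      rw [h3, h4, p3, p2 q (mem_insert_self _ _), insert_erase hq]

/-- an edge over a strong set -/
theorem Str.over {t m : ℕ} (hm : 1 ≤ m) {H : Finset (Finset U)} {A V : Finset U}
    (hA : Str m H A V) {h : Finset U} (hh : h ∈ H) (hV : h ⊆ V) (hn : ¬ h ⊆ A)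
    (hwt : wt m h = t + m) (hw : t ≤ wt m (h ∩ A)) :
    wt m (h ∩ A) = t ∧ Str m H (A ∪ h) V ∧ ∀ x ∈ H, x ⊆ A ∪ h → x ⊆ A ∨ x = h := by
  have k0 := wt_add m A h
  rw [inter_comm A h, hwt] at k0
  have k1 := hA.2 (A ∪ h) subset_union_left (union_subset hA.1 hV)
  have k2 : e H A + 1 ≤ e H (A ∪ h) := by
    unfold e
    have k3 : insert h (H.filter (fun h => h ⊆ A)) ⊆ H.filter (fun x => x ⊆ A ∪ h) := by
      intro x hx
      rw [mem_insert] at hx
      rw [mem_filter]
      rcases hx with rfl | hx
      · exact ⟨hh, subset_union_right⟩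
      · rw [mem_filter] at hx
        exact ⟨hx.1, hx.2.trans subset_union_left⟩
    have k4 := card_le_card k3
    have k5 : h ∉ H.filter (fun h => h ⊆ A) := by
      rw [mem_filter]; rintro ⟨_, h5⟩; exact hn h5
    rw [card_insert_of_notMem k5] at k4
    exact k4
  have k3 : me m H A + m ≤ me m H (A ∪ h) := by
    unfold me
    have := Nat.mul_le_mul_left m k2
    rw [mul_add, mul_one] at this
    exact this
  unfold dl at k1
  have hE : dl m H (A ∪ h) ≤ dl m H A := by
    unfold dl
    omega
  refine ⟨by omega, ⟨union_subset hA.1 hV, ?_⟩, ?_⟩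
  · intro S h1 h2
    have h3 := hA.2 S (subset_union_left.trans h1) h2
    omega
  · intro x hx hxs
    by_contra hcon
    push Not at hcon
    have k4 : e H A + 2 ≤ e H (A ∪ h) := by
      unfold e
      have k3 : insert x (insert h (H.filter (fun h => h ⊆ A))) ⊆
          H.filter (fun x => x ⊆ A ∪ h) := by
        intro y hy
        rw [mem_insert, mem_insert] at hy
        rw [mem_filter]
        rcases hy with rfl | rfl | hy
        · exact ⟨hx, hxs⟩
        · exact ⟨hh, subset_union_right⟩
        · rw [mem_filter] at hy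
          exact ⟨hy.1, hy.2.trans subset_union_left⟩
      have k4 := card_le_card k3
      have k5 : h ∉ H.filter (fun h => h ⊆ A) := by
        rw [mem_filter]; rintro ⟨_, h5⟩; exact hn h5
      have k6 : x ∉ insert h (H.filter (fun h => h ⊆ A)) := by
        rw [mem_insert, mem_filter]
        rintro (h5 | ⟨_, h5⟩)
        · exact hcon.2 h5
        · exact hcon.1 h5
      rw [card_insert_of_notMem k6, card_insert_of_notMem k5] at k4
      omega
    have k5 : me m H A + m * 2 ≤ me m H (A ∪ h) := by
      unfold me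
      have := Nat.mul_le_mul_left m k4
      rw [mul_add] at this
      exact this
    omega

/-- extension lemma -/
theorem ext_lemma {t m : ℕ} (hm : 1 ≤ m) {V : Finset U} {H : Finset (Finset U)}
    (hK : IsK t m V H) :
    ∀ (n : ℕ) (A : Finset U) (g : Equiv.Perm U), (V \ A).card ≤ n → Srt g → Str m H A V →
      Str m H (g • A) V → (∀ h, h ⊆ A → (h ∈ H ↔ g • h ∈ H)) →
      ∃ (V' : Finset U) (H' : Finset (Finset U)) (g' : Equiv.Perm U),
        IsK t m V' H' ∧ Str m H' V V' ∧ Agr H H' V ∧ Srt g' ∧ (∀ u ∈ A, g' u = g u) ∧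
        Str m H' (g' • V) V' ∧ (∀ h, h ⊆ V → (h ∈ H' ↔ g' • h ∈ H')) := by
  intro n
  induction n with
  | zero =>
    intro A g hn hg hA hgA hiso
    have hAV : A = V := by
      refine Subset.antisymm hA.1 ?_
      rw [← sdiff_eq_empty_iff_subset]
      exact card_eq_zero.1 (by omega)
    subst hAV
    refine ⟨A, H, g, hK, Str.refl _ _ _, fun h _ => Iff.rfl, hg, fun _ _ => rfl, hgA, hiso⟩
  | succ n ih =>
    intro A g hn hg hA hgA hiso
    by_cases hcl : ∃ h ∈ H, ∃ h' ∈ H, ¬ h ⊆ A ∧ ¬ h' ⊆ g • A ∧
        t ≤ wt m ((g • (h ∩ A)) ∩ (h' ∩ g • A))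
    · obtain ⟨h, hh, h', hh', hnA, hnA', hw⟩ := hcl
      have hw1 : t ≤ wt m (h ∩ A) := by
        rw [← wt_smul m hg]; exact hw.trans (wt_mono m inter_subset_left)
      have hw2 : t ≤ wt m (h' ∩ g • A) := hw.trans (wt_mono m inter_subset_right)
      have hV := hK.sub h hh
      have hV' := hK.sub h' hh'
      obtain ⟨a1, a2, a3⟩ := hA.over hm hh hV hnA (wt_edge (hK.pcard h hh) (hK.ccard h hh)) hw1
      obtain ⟨b1, b2, b3⟩ := hgA.over hm hh' hV' hnA'
        (wt_edge (hK.pcard h' hh') (hK.ccard h' hh')) hw2
      have hWW : g • (h ∩ A) = h' ∩ g • A := by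
        have c1 : (g • (h ∩ A)) ∩ (h' ∩ g • A) = g • (h ∩ A) :=
          eq_of_sub_wt hm inter_subset_left (by rw [wt_smul m hg, a1]; exact hw)
        have c2 : (g • (h ∩ A)) ∩ (h' ∩ g • A) = h' ∩ g • A :=
          eq_of_sub_wt hm inter_subset_right (by rw [b1]; exact hw)
        rw [← c1, c2]
      have hd1 : Disjoint (g • (h \ A)) (g • A) := by
        rw [disjoint_left]
        intro x hx hx'
        obtain ⟨y, rfl⟩ := g.surjective x
        rw [mem_smul_iff] at hx hx'
        exact (mem_sdiff.1 hx).2 hx'
      have hd2 : Disjoint (h' \ g • A) (g • A) := sdiff_disjoint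
      have hp : (pts (g • (h \ A))).card = (pts (h' \ g • A)).card := by
        have c1 := pts_sdiff h A
        have c2 := pts_sdiff h' (g • A)
        rw [hK.pcard h hh] at c1
        rw [hK.pcard h' hh', ← hWW, pts_smul hg, card_smul_finset] at c2
        rw [pts_smul hg, card_smul_finset]
        omega
      have hc : (cls (g • (h \ A))).card = (cls (h' \ g • A)).card := by
        have c1 := cls_sdiff h A
        have c2 := cls_sdiff h' (g • A)
        rw [hK.ccard h hh] at c1
        rw [hK.ccard h' hh', ← hWW, cls_smul hg, card_smul_finset] at c2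
        rw [cls_smul hg, card_smul_finset]
        omega
      obtain ⟨π, p1, p2, p3⟩ := exists_map _ (g • A) _ _ rfl hd1 hd2 hp hc
      let g1 : Equiv.Perm U := π * g
      have hg1 : Srt g1 := p1.mul hg
      have hg1A : ∀ u ∈ A, g1 u = g u := by
        intro u hu
        show π (g u) = g u
        exact p2 _ (by rw [mem_smul_iff]; exact hu)
      have hg1s : ∀ x, x ⊆ A → g1 • x = g • x := by
        intro x hx
        apply image_congr
        intro y hy
        exact hg1A y (hx hy)
      have hg1h : g1 • h = h' := by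
        have c1 : h = (h \ A) ∪ (h ∩ A) := (sdiff_union_inter h A).symm
        have c2 : g1 • (h \ A) = h' \ g • A := by
          show (π * g) • (h \ A) = _
          rw [mul_smul]; exact p3
        rw [c1, smul_finset_union, c2, hg1s _ inter_subset_right, hWW]
        exact sdiff_union_inter h' (g • A)
      have hg1i : g1 • (A ∪ h) = g • A ∪ h' := by
        rw [smul_finset_union, hg1h, hg1s A (Subset.refl _)]
      have hiso1 : ∀ x, x ⊆ A ∪ h → (x ∈ H ↔ g1 • x ∈ H) := by
        intro x hx
        constructor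
        · intro hxH
          rcases a3 x hxH hx with c | c
          · rw [hg1s x c]; exact (hiso x c).1 hxH
          · rw [c, hg1h]; exact hh'
        · intro hxH
          have c0 : g1 • x ⊆ g • A ∪ h' := by
            rw [← hg1i]; exact smul_finset_subset_smul_finset_iff.2 hx
          rcases b3 _ hxH c0 with c | c
          · have c1 : x ⊆ A := by
              rw [← hg1s A (Subset.refl _), smul_finset_subset_smul_finset_iff] at c
              exact c
            rw [hg1s x c1] at hxH
            exact (hiso x c1).2 hxH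
          · rw [← hg1h] at c
            rw [smul_left_cancel g1 c]; exact hh
      have hn1 : (V \ (A ∪ h)).card ≤ n := by
        obtain ⟨b, hb1, hb2⟩ := not_subset.1 hnA
        have c1 : V \ (A ∪ h) ⊆ (V \ A).erase b := by
          intro x hx
          rw [mem_sdiff, mem_union, not_or] at hx
          rw [mem_erase, mem_sdiff]
          exact ⟨fun c => hx.2.2 (c ▸ hb1), hx.1, hx.2.1⟩
        have c2 := card_le_card c1
        rw [card_erase_of_mem (mem_sdiff.2 ⟨hV hb1, hb2⟩)] at c2
        omega
      obtain ⟨V', H', g', r1, r2, r3, r4, r5, r6, r7⟩ :=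
        ih (A ∪ h) g1 hn1 hg1 a2 (by rw [hg1i]; exact b2) hiso1
      refine ⟨V', H', g', r1, r2, r3, r4, ?_, r6, r7⟩
      intro u hu
      rw [r5 u (mem_union_left _ hu), hg1A u hu]
    · -- free amalgamation
      obtain ⟨π, p1, p2, p3⟩ := exists_move (g • A) V (g • (V \ A)) (by
        rw [disjoint_left]
        intro x hx hx'
        obtain ⟨y, rfl⟩ := g.surjective x
        rw [mem_smul_iff] at hx hx'
        exact (mem_sdiff.1 hx).2 hx')
      let g1 : Equiv.Perm U := π * g
      have hg1 : Srt g1 := p1.mul hg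
      have hg1A : ∀ u ∈ A, g1 u = g u := by
        intro u hu
        show π (g u) = g u
        exact p2 _ (by rw [mem_smul_iff]; exact hu)
      have hg1s : ∀ h, h ⊆ A → g1 • h = g • h := by
        intro h hh
        apply image_congr
        intro x hx
        exact hg1A x (hh hx)
      have hg1n : ∀ u ∈ V, u ∉ A → g1 u ∉ V := by
        intro u hu huA
        exact p3 (g u) (by rw [mem_smul_iff]; exact mem_sdiff.2 ⟨hu, huA⟩)
      have hint : V ∩ g1 • V = g • A := by
        ext x
        obtain ⟨y, rfl⟩ := g1.surjective x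
        rw [mem_inter, mem_smul_iff]
        constructor
        · rintro ⟨h1, h2⟩
          by_cases hy : y ∈ A
          · rw [hg1A y hy, mem_smul_iff]; exact hy
          · exact absurd h1 (hg1n y h2 hy)
        · intro h1
          have h2 : g1 y ∈ g1 • A := by rw [hg1s A (Subset.refl _)]; exact h1
          rw [mem_smul_iff] at h2
          exact ⟨hgA.1 h1, hA.1 h2⟩
      have hK2 : IsK t m (g1 • V) (g1 • H) := hK.smul hg1
      have hag : Agr H (g1 • H) (V ∩ g1 • V) := by
        rw [hint]
        intro h hh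
        have hx : g1 • (g1⁻¹ • h) = h := smul_inv_smul g1 h
        have h1 : g1⁻¹ • h ⊆ A := by
          rw [← hg1s A (Subset.refl _), ← hx, smul_finset_subset_smul_finset_iff] at hh
          exact hh
        rw [← hx, smul_mem_smul_finset_iff, hiso _ h1, hg1s _ h1]
      have hs1 : Str m H (V ∩ g1 • V) V := by rw [hint]; exact hgA
      have hs2 : Str m (g1 • H) (V ∩ g1 • V) (g1 • V) := by
        rw [hint, ← hg1s A (Subset.refl _)]; exact hA.smul hg1
      have hno : ∀ x ∈ H, ∀ y ∈ g1 • H, t ≤ wt m (x ∩ y) →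
          x ⊆ V ∩ g1 • V ∨ y ⊆ V ∩ g1 • V := by
        intro x hx y hy hw
        by_contra hcon
        push Not at hcon
        rw [hint] at hcon
        apply hcl
        have hyy : g1 • (g1⁻¹ • y) = y := smul_inv_smul g1 y
        have hy0 : g1⁻¹ • y ∈ H := by
          rw [← hyy, smul_mem_smul_finset_iff] at hy; exact hy
        refine ⟨g1⁻¹ • y, hy0, x, hx, ?_, hcon.1, ?_⟩
        · intro c
          apply hcon.2
          rw [← hyy, hg1s _ c]
          exact smul_finset_subset_smul_finset_iff.2 c
        · refine hw.trans (wt_mono m ?_)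
          intro z hz
          rw [mem_inter] at hz
          have hzA : z ∈ g • A := by
            rw [← hint, mem_inter]
            exact ⟨hK.sub x hx hz.1, hK2.sub y hy hz.2⟩
          rw [mem_inter, mem_inter]
          refine ⟨?_, hz.1, hzA⟩
          rw [← hg1s _ inter_subset_right]
          obtain ⟨w, rfl⟩ := g1.surjective z
          rw [mem_smul_iff, mem_inter]
          constructor
          · have := hz.2
            rw [← hyy, mem_smul_iff] at this
            exact this
          · rw [← hg1s A (Subset.refl _), mem_smul_iff] at hzA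
            exact hzA
      obtain ⟨q1, q2, q3⟩ := free_amalgam hK hK2 hag hs1 hs2 hno
      refine ⟨V ∪ g1 • V, H ∪ g1 • H, g1, q1, q2, agr_left hK2 hag, hg1, hg1A, q3, ?_⟩
      intro h hh
      rw [← agr_left hK2 hag h hh,
        ← agr_right hK hag (g1 • h) (smul_finset_subset_smul_finset_iff.2 hh),
        smul_mem_smul_finset_iff]

end Pool.Agent.Y135.SS
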