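import Pool.Agent.Y135.SS.Ext

open Finset
open scoped Pointwise

namespace Pool.Agent.Y135.SS

theorem isK_empty (t m : ℕ) (V : Finset U) : IsK t m V ∅ := by
  refine ⟨?_, ?_, ?_, ?_, ?_⟩
  · intro h hh; exact absurd hh (notMem_empty h)
  · intro h hh; exact absurd hh (notMem_empty h)
  · intro h hh; exact absurd hh (notMem_empty h)
  · intro h hh; exact absurd hh (notMem_empty h)
  · intro S hS hp
    have h1 := pts_le_wt m S
    have h2 : me m ∅ S = 0 := by unfold me e; rw [filter_empty]; rfl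
    unfold dl
    omega

theorem IsK.str_empty {t m : ℕ} {V : Finset U} {H : Finset (Finset U)} (hK : IsK t m V H) :
    Str m H ∅ V := by
  refine ⟨empty_subset _, ?_⟩
  intro S _ hS
  have h0 : dl m H ∅ ≤ 0 := by
    have : wt m (∅ : Finset U) = 0 := by unfold wt pts cls; simp
    unfold dl
    omega
  have h1 : 0 ≤ dl m H S := by
    rcases Nat.lt_or_ge t (pts S).card with h2 | h2
    · have := hK.dim S hS h2
      omega
    · have h3 := hK.e_le_one h2
      rcases Nat.eq_zero_or_pos (e H S) with h4 | h4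
      · unfold dl me
        rw [h4, mul_zero]
        omega
      · have h5 : (H.filter (fun h => h ⊆ S)).Nonempty := by
          rw [← card_pos]; exact h4
        obtain ⟨h, hh⟩ := h5
        rw [mem_filter] at hh
        have h6 := wt_mono m hh.2
        rw [wt_edge (hK.pcard h hh.1) (hK.ccard h hh.1)] at h6
        have h7 : e H S = 1 := by omega
        unfold dl me
        rw [h7, mul_one]
        omega
  omega

theorem IsK.add_set {t m : ℕ} {V : Finset U} {H : Finset (Finset U)} (hK : IsK t m V H)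
    (F : Finset U) : IsK t m (V ∪ F) H ∧ Str m H V (V ∪ F) := by
  have hd : V ∩ (F \ V) = ∅ := by
    ext x; simp only [mem_inter, mem_sdiff, notMem_empty, iff_false]; tauto
  have hu : V ∪ (F \ V) = V ∪ F := union_sdiff_self_eq_union
  have h1 : Agr H ∅ (V ∩ (F \ V)) := by
    rw [hd]
    intro h hh
    constructor
    · intro h1
      have h2 := hK.ccard h h1
      rw [subset_empty.1 hh] at h2
      unfold cls at h2
      rw [filter_empty, card_empty] at h2
      omega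
    · intro h1; exact absurd h1 (notMem_empty h)
  obtain ⟨q1, q2, _⟩ := free_amalgam hK (isK_empty t m (F \ V)) h1
    (by rw [hd]; exact hK.str_empty) (by rw [hd]; exact (isK_empty t m (F \ V)).str_empty)
    (by
      intro h _ h' hh' _
      exact absurd hh' (notMem_empty _))
  rw [hu, union_empty] at q1 q2
  exact ⟨q1, q2⟩

theorem exists_fresh_set (Z : Finset U) (a b : ℕ) :
    ∃ Q : Finset U, Disjoint Q Z ∧ (pts Q).card = a ∧ (cls Q).card = b := by
  have h1 : ((Z.toLeft : Set ℕ)ᶜ).Infinite := Z.toLeft.finite_toSet.infinite_compl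
  have h2 : ((Z.toRight : Set ℕ)ᶜ).Infinite := Z.toRight.finite_toSet.infinite_compl
  obtain ⟨A, hA1, hA2⟩ := h1.exists_subset_card_eq a
  obtain ⟨B, hB1, hB2⟩ := h2.exists_subset_card_eq b
  refine ⟨A.map ⟨Sum.inl, Sum.inl_injective⟩ ∪ B.map ⟨Sum.inr, Sum.inr_injective⟩, ?_, ?_, ?_⟩
  · rw [disjoint_left]
    intro x hx hxZ
    rcases mem_union.1 hx with hx | hx
    · obtain ⟨y, hy, rfl⟩ := mem_map.1 hx
      exact hA1 hy (by simpa using hxZ)
    · obtain ⟨y, hy, rfl⟩ := mem_map.1 hx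
      exact hB1 hy (by simpa using hxZ)
  · have : pts (A.map ⟨Sum.inl, Sum.inl_injective⟩ ∪ B.map ⟨Sum.inr, Sum.inr_injective⟩)
        = A.map ⟨Sum.inl, Sum.inl_injective⟩ := by
      unfold pts
      ext x
      cases x <;> simp
    rw [this, card_map, hA2]
  · have : cls (A.map ⟨Sum.inl, Sum.inl_injective⟩ ∪ B.map ⟨Sum.inr, Sum.inr_injective⟩)
        = B.map ⟨Sum.inr, Sum.inr_injective⟩ := by
      unfold cls
      ext x
      cases x <;> simp
    rw [this, card_map, hB2]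

theorem IsK.add_edge {t m : ℕ} {V : Finset U} {H : Finset (Finset U)}
    (hm : 1 ≤ m) (hK : IsK t m V H) {W : Finset U} (hWV : W ⊆ V) (hW : wt m W = t)
    (hp : (cls W).card ≤ 1) (hno : ∀ h ∈ H, ¬ W ⊆ h) :
    ∃ Q : Finset U, IsK t m (V ∪ Q) (insert (W ∪ Q) H) ∧
      Str m (insert (W ∪ Q) H) V (V ∪ Q) ∧ Agr H (insert (W ∪ Q) H) V := by
  -- choose the new vertices
  obtain ⟨Q, hQV, hQp, hQc⟩ := exists_fresh_set V (t - (pts W).card) (1 - (cls W).card)
  have hQW : Disjoint Q W := disjoint_left.2 fun x hx hxW => disjoint_left.1 hQV hx (hWV hxW)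
  have hWQ : W ∩ Q = ∅ := by rw [inter_comm]; exact disjoint_iff_inter_eq_empty.1 hQW
  have hVQ : V ∩ Q = ∅ := by rw [inter_comm]; exact disjoint_iff_inter_eq_empty.1 hQV
  have hemp1 : (pts (∅ : Finset U)).card = 0 := by unfold pts; simp
  have hemp2 : (cls (∅ : Finset U)).card = 0 := by unfold cls; simp
  have hpt := pts_le_wt m W
  have hcp : (pts (W ∪ Q)).card = t := by
    have h1 := pts_add W Q
    rw [hWQ, hemp1] at h1
    omega
  have hcc : (cls (W ∪ Q)).card = 1 := by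
    have h1 := cls_add W Q
    rw [hWQ, hemp2] at h1
    omega
  have hwQ : wt m Q = m := by
    have h1 := wt_add m W Q
    have h2 : wt m (∅ : Finset U) = 0 := by unfold wt; rw [hemp1, hemp2, mul_zero, add_zero]
    rw [hWQ, h2, wt_edge hcp hcc] at h1
    omega
  have hQne : Q.Nonempty := by
    rw [nonempty_iff_ne_empty]
    intro h
    rw [h] at hwQ
    unfold wt at hwQ
    rw [hemp1, hemp2, mul_zero] at hwQ
    omega
  have hagr : Agr H (insert (W ∪ Q) H) V := by
    intro h hh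
    constructor
    · intro h1; exact mem_insert_of_mem h1
    · intro h1
      rcases mem_insert.1 h1 with h1 | h1
      · exfalso
        obtain ⟨v, hv⟩ := hQne
        apply disjoint_left.1 hQV hv
        apply hh
        rw [h1]; exact mem_union_right _ hv
      · exact h1
  have hlinX : ∀ h ∈ H, t ≤ wt m (h ∩ (W ∪ Q)) → False := by
    intro h hh hw
    have h1 : h ∩ (W ∪ Q) ⊆ W := by
      intro x hx
      rw [mem_inter] at hx
      rcases mem_union.1 hx.2 with h3 | h3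
      · exact h3
      · exact absurd (hK.sub h hh hx.1) (disjoint_left.1 hQV h3)
    have h2 : h ∩ (W ∪ Q) = W := eq_of_sub_wt hm h1 (by rw [hW]; exact hw)
    apply hno h hh
    rw [← h2]
    exact inter_subset_left
  have hlin : ∀ h ∈ insert (W ∪ Q) H, ∀ h' ∈ insert (W ∪ Q) H, t ≤ wt m (h ∩ h') → h = h' := by
    intro h hh h' hh' hw
    rcases mem_insert.1 hh with hh | hh <;> rcases mem_insert.1 hh' with hh' | hh'
    · rw [hh, hh']
    · rw [hh, inter_comm] at hw; exact (hlinX h' hh' hw).elim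
    · rw [hh'] at hw; exact (hlinX h hh hw).elim
    · exact hK.lin h hh h' hh' hw
  have hpcard : ∀ h ∈ insert (W ∪ Q) H, (pts h).card = t := by
    intro h hh
    rcases mem_insert.1 hh with hh | hh
    · rw [hh]; exact hcp
    · exact hK.pcard h hh
  have hccard : ∀ h ∈ insert (W ∪ Q) H, (cls h).card = 1 := by
    intro h hh
    rcases mem_insert.1 hh with hh | hh
    · rw [hh]; exact hcc
    · exact hK.ccard h hh
  have hsubE : ∀ S, ∀ x ∈ H, x ⊆ S → x ⊆ S \ Q := by
    intro S x hx hxS y hy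
    rw [mem_sdiff]
    exact ⟨hxS hy, fun h3 => disjoint_left.1 hQV h3 (hK.sub x hx hy)⟩
  have he : ∀ S, e (insert (W ∪ Q) H) S ≤ e H (S \ Q) + 1 := by
    intro S
    unfold e
    have h1 : (insert (W ∪ Q) H).filter (fun h => h ⊆ S) ⊆
        insert (W ∪ Q) (H.filter (fun h => h ⊆ S \ Q)) := by
      intro x hx
      rw [mem_filter] at hx
      rw [mem_insert, mem_filter]
      rcases mem_insert.1 hx.1 with h2 | h2
      · exact Or.inl h2
      · exact Or.inr ⟨h2, hsubE S x h2 hx.2⟩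
    exact (card_le_card h1).trans (card_insert_le _ _)
  have he' : ∀ S, ¬ (W ∪ Q) ⊆ S → e (insert (W ∪ Q) H) S ≤ e H (S \ Q) := by
    intro S hnS
    unfold e
    apply card_le_card
    intro x hx
    rw [mem_filter] at hx
    rw [mem_filter]
    rcases mem_insert.1 hx.1 with h2 | h2
    · exact absurd (h2 ▸ hx.2) hnS
    · exact ⟨h2, hsubE S x h2 hx.2⟩
  have hdl : ∀ S, dl m H (S \ Q) ≤ dl m (insert (W ∪ Q) H) S := by
    intro S
    have h2 := wt_sdiff m S Q
    by_cases hv : (W ∪ Q) ⊆ S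
    · have h1 := Nat.mul_le_mul_left m (he S)
      have h3 : S ∩ Q = Q := inter_eq_right.2 (subset_union_right.trans hv)
      rw [h3, hwQ] at h2
      rw [mul_add, mul_one] at h1
      unfold dl me
      omega
    · have h1 := Nat.mul_le_mul_left m (he' S hv)
      unfold dl me
      omega
  refine ⟨Q, ⟨?_, hpcard, hccard, hlin, ?_⟩, ⟨subset_union_left, ?_⟩, hagr⟩
  · intro h hh
    rcases mem_insert.1 hh with hh | hh
    · rw [hh]; exact union_subset_union hWV (Subset.refl _)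
    · exact (hK.sub h hh).trans subset_union_left
  · intro S hS hpS
    have hE : S \ Q ⊆ V := by
      intro x hx
      rw [mem_sdiff] at hx
      rcases mem_union.1 (hS hx.1) with h5 | h5
      · exact h5
      · exact absurd h5 hx.2
    rcases Nat.lt_or_ge t (pts (S \ Q)).card with h1 | h1
    · have h2 := hK.dim (S \ Q) hE h1
      have h3 := hdl S
      omega
    · have h2 := hK.e_le_one h1
      have h3 := he S
      exact dim_of_e_le_two hlin hpcard hccard hpS (by omega)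
  · intro S h1 h2
    have h3 := hdl S
    have h4 : S \ Q = V := by
      apply Subset.antisymm
      · intro x hx
        rw [mem_sdiff] at hx
        rcases mem_union.1 (h2 hx.1) with h5 | h5
        · exact h5
        · exact absurd h5 hx.2
      · intro x hx
        rw [mem_sdiff]
        exact ⟨h1 hx, fun h5 => disjoint_left.1 hQV h5 hx⟩
    rw [h4] at h3
    rw [← hagr.dl (Subset.refl _)]
    exact h3

/-- the set of points listed by an embedding -/
def ptset {t : ℕ} (a : Fin (t + 1) ↪ ℕ) : Finset U :=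
  univ.map (a.trans ⟨Sum.inl, Sum.inl_injective⟩)

theorem mem_ptset {t : ℕ} (a : Fin (t + 1) ↪ ℕ) (x : U) : x ∈ ptset a ↔ ∃ i, Sum.inl (a i) = x := by
  unfold ptset
  simp

theorem card_ptset {t : ℕ} (a : Fin (t + 1) ↪ ℕ) : (ptset a).card = t + 1 := by
  unfold ptset
  rw [card_map, card_univ, Fintype.card_fin]

theorem pts_ptset {t : ℕ} (a : Fin (t + 1) ↪ ℕ) : pts (ptset a) = ptset a := by
  unfold pts
  rw [filter_true_of_mem]
  intro x hx
  rw [mem_ptset] at hx
  obtain ⟨i, rfl⟩ := hx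
  rfl

theorem cls_ptset {t : ℕ} (a : Fin (t + 1) ↪ ℕ) : cls (ptset a) = ∅ := by
  unfold cls
  rw [filter_eq_empty_iff]
  intro x hx
  rw [mem_ptset] at hx
  obtain ⟨i, rfl⟩ := hx
  simp

theorem IsK.str_ptset {t m : ℕ} {V : Finset U} {H : Finset (Finset U)} (hK : IsK t m V H)
    (a : Fin (t + 1) ↪ ℕ) (ha : ptset a ⊆ V) : Str m H (ptset a) V := by
  refine ⟨ha, ?_⟩
  intro S h1 h2
  have h3 := card_le_card (pts_mono h1)
  rw [pts_ptset, card_ptset] at h3
  have h4 := hK.dim S h2 h3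
  have h5 : dl m H (ptset a) ≤ (t : ℤ) + 1 := by
    have h6 : cls (ptset a) = ∅ := cls_ptset a
    unfold dl wt
    rw [pts_ptset, card_ptset, h6, card_empty, mul_zero]
    push_cast
    omega
  omega

theorem IsK.no_edge_ptset {t m : ℕ} {V : Finset U} {H : Finset (Finset U)} (hK : IsK t m V H)
    (a : Fin (t + 1) ↪ ℕ) {h : Finset U} (hh : h ⊆ ptset a) : h ∉ H := by
  intro h1
  have h2 := card_le_card (cls_mono hh)
  rw [cls_ptset, card_empty, hK.ccard h h1] at h2
  omega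

/-- pairs of tuples -/
abbrev J (t : ℕ) := (Fin (t + 1) ↪ ℕ) × (Fin (t + 1) ↪ ℕ)

/-- forcing conditions -/
structure Cond (t m : ℕ) where
  V : Finset U
  H : Finset (Finset U)
  D : J t → Finset U
  g : J t → Equiv.Perm U
  isK : IsK t m V H
  srt : ∀ j, Srt (g j)
  strD : ∀ j, Str m H (D j) V
  strR : ∀ j, Str m H (g j • D j) V
  iso : ∀ j h, h ⊆ D j → (h ∈ H ↔ g j • h ∈ H)
  act : ∀ j, D j = ∅ ∨ ∀ i, Sum.inl (j.1 i) ∈ D j ∧ g j (Sum.inl (j.1 i)) = Sum.inl (j.2 i)

instance instPreorderCond (t m : ℕ) : Preorder (Cond t m) where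
  le p q := Agr p.H q.H p.V ∧ Str m q.H p.V q.V ∧ ∀ j, p.D j ⊆ q.D j ∧ ∀ u ∈ p.D j, q.g j u = p.g j u
  le_refl p := ⟨fun _ _ => Iff.rfl, Str.refl _ _ _, fun _ => ⟨Subset.refl _, fun _ _ => rfl⟩⟩
  le_trans p q r := by
    rintro ⟨h1, h2, h3⟩ ⟨k1, k2, k3⟩
    refine ⟨?_, (k1.str h2).trans k2, ?_⟩
    · intro h hh
      rw [h1 h hh, k1 h (hh.trans h2.1)]
    · intro j
      refine ⟨(h3 j).1.trans (k3 j).1, ?_⟩
      intro u hu
      rw [(k3 j).2 u ((h3 j).1 hu), (h3 j).2 u hu]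

/-- enlarge the structure -/
theorem Cond.grow {t m : ℕ} (p : Cond t m) {V' : Finset U} {H' : Finset (Finset U)}
    (hK : IsK t m V' H') (hS : Str m H' p.V V') (hA : Agr p.H H' p.V) :
    ∃ q : Cond t m, p ≤ q ∧ q.V = V' ∧ q.H = H' ∧ q.D = p.D ∧ q.g = p.g := by
  refine ⟨⟨V', H', p.D, p.g, hK, p.srt, fun j => (hA.str (p.strD j)).trans hS,
    fun j => (hA.str (p.strR j)).trans hS, ?_, p.act⟩, ⟨hA, hS, fun j => ⟨Subset.refl _,
    fun _ _ => rfl⟩⟩, rfl, rfl, rfl, rfl⟩
  intro j h hh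
  rw [← hA h (hh.trans (p.strD j).1), ← hA (p.g j • h)
    ((smul_finset_subset_smul_finset_iff.2 hh).trans (p.strR j).1)]
  exact p.iso j h hh

/-- enlarge one partial automorphism -/
theorem Cond.upd {t m : ℕ} (p : Cond t m) (j : J t) {D' : Finset U} {g' : Equiv.Perm U}
    (hg' : Srt g') (h1 : Str m p.H D' p.V) (h2 : Str m p.H (g' • D') p.V)
    (h3 : ∀ h, h ⊆ D' → (h ∈ p.H ↔ g' • h ∈ p.H))
    (h4 : ∀ i, Sum.inl (j.1 i) ∈ D' ∧ g' (Sum.inl (j.1 i)) = Sum.inl (j.2 i))
    (h5 : p.D j ⊆ D') (h6 : ∀ u ∈ p.D j, g' u = p.g j u) :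
    ∃ q : Cond t m, p ≤ q ∧ q.V = p.V ∧ q.H = p.H ∧ q.D j = D' ∧ q.g j = g' := by
  classical
  refine ⟨⟨p.V, p.H, Function.update p.D j D', Function.update p.g j g', p.isK, ?_, ?_, ?_, ?_,
    ?_⟩, ⟨fun _ _ => Iff.rfl, Str.refl _ _ _, ?_⟩, rfl, rfl, ?_, ?_⟩
  · intro k
    by_cases hk : k = j
    · subst hk; rw [Function.update_self]; exact hg'
    · rw [Function.update_of_ne hk]; exact p.srt k
  · intro k
    by_cases hk : k = j
    · subst hk; rw [Function.update_self]; exact h1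
    · rw [Function.update_of_ne hk]; exact p.strD k
  · intro k
    by_cases hk : k = j
    · subst hk; rw [Function.update_self, Function.update_self]; exact h2
    · rw [Function.update_of_ne hk, Function.update_of_ne hk]; exact p.strR k
  · intro k
    by_cases hk : k = j
    · subst hk; rw [Function.update_self, Function.update_self]; exact h3
    · rw [Function.update_of_ne hk, Function.update_of_ne hk]; exact p.iso k
  · intro k
    by_cases hk : k = j
    · subst hk; rw [Function.update_self, Function.update_self]; exact Or.inr h4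
    · rw [Function.update_of_ne hk, Function.update_of_ne hk]; exact p.act k
  · intro k
    by_cases hk : k = j
    · subst hk
      show p.D k ⊆ Function.update p.D k D' k ∧ ∀ u ∈ p.D k, Function.update p.g k g' k u = _
      rw [Function.update_self, Function.update_self]
      exact ⟨h5, h6⟩
    · show p.D k ⊆ Function.update p.D j D' k ∧ ∀ u ∈ p.D k, Function.update p.g j g' k u = _
      rw [Function.update_of_ne hk, Function.update_of_ne hk]
      exact ⟨Subset.refl _, fun _ _ => rfl⟩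
  · exact Function.update_self _ _ _
  · exact Function.update_self _ _ _

theorem dense1 {t m : ℕ} (p : Cond t m) (F : Finset U) : ∃ q, p ≤ q ∧ F ⊆ q.V := by
  obtain ⟨h1, h2⟩ := p.isK.add_set F
  obtain ⟨q, h3, h4, _, _, _⟩ := p.grow h1 h2 (fun _ _ => Iff.rfl)
  exact ⟨q, h3, by rw [h4]; exact subset_union_right⟩

theorem dense2 {t m : ℕ} (hm : 1 ≤ m) (p : Cond t m) (W : Finset U) (hW : wt m W = t)
    (hp : (cls W).card ≤ 1) : ∃ q, p ≤ q ∧ ∃ h ∈ q.H, W ⊆ h := by
  obtain ⟨p1, h1, h2⟩ := dense1 p W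
  by_cases h3 : ∃ h ∈ p1.H, W ⊆ h
  · exact ⟨p1, h1, h3⟩
  · push Not at h3
    obtain ⟨Q, h4, h5, h6⟩ := p1.isK.add_edge hm h2 hW hp h3
    obtain ⟨q, k1, k2, k3, _, _⟩ := p1.grow h4 h5 h6
    refine ⟨q, h1.trans k1, W ∪ Q, ?_, subset_union_left⟩
    rw [k3]; exact mem_insert_self _ _

/-- activate index `j` -/
theorem activate {t m : ℕ} (p : Cond t m) (j : J t) (F : Finset U) : ∃ q, p ≤ q ∧ F ⊆ q.V ∧
    ∀ i, Sum.inl (j.1 i) ∈ q.D j ∧ q.g j (Sum.inl (j.1 i)) = Sum.inl (j.2 i) := by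
  obtain ⟨p1, h1, h2⟩ := dense1 p (F ∪ ptset j.1 ∪ ptset j.2)
  have hF : F ⊆ p1.V := (subset_union_left.trans subset_union_left).trans h2
  rcases p1.act j with h3 | h3
  · obtain ⟨σ, hσ⟩ : ∃ σ : Equiv.Perm ℕ, ∀ i, σ (j.1 i) = j.2 i := by
      have h4 := Equiv.Perm.isMultiplyPretransitive ℕ (t + 1)
      obtain ⟨σ, hσ⟩ := h4.exists_smul_eq j.1 j.2
      refine ⟨σ, fun i => ?_⟩
      have := DFunLike.congr_fun hσ i
      exact this
    let g0 : Equiv.Perm U := Equiv.sumCongr σ (Equiv.refl ℕ)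
    have hg0 : Srt g0 := by
      intro u
      cases u <;> rfl
    have hg0a : ∀ i, g0 (Sum.inl (j.1 i)) = Sum.inl (j.2 i) := by
      intro i
      show Sum.inl (σ (j.1 i)) = _
      rw [hσ]
    have hg0s : g0 • ptset j.1 = ptset j.2 := by
      ext x
      rw [mem_ptset]
      constructor
      · intro h4
        obtain ⟨y, rfl⟩ := g0.surjective x
        rw [mem_smul_iff, mem_ptset] at h4
        obtain ⟨i, rfl⟩ := h4
        exact ⟨i, (hg0a i).symm⟩
      · rintro ⟨i, rfl⟩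
        rw [← hg0a, mem_smul_iff, mem_ptset]
        exact ⟨i, rfl⟩
    have hs1 : ptset j.1 ⊆ p1.V := (subset_union_right.trans subset_union_left).trans h2
    have hs2 : ptset j.2 ⊆ p1.V := subset_union_right.trans h2
    obtain ⟨q, k1, k2, _, k3, k4⟩ := p1.upd j (D' := ptset j.1) (g' := g0) hg0
      (p1.isK.str_ptset j.1 hs1) (by rw [hg0s]; exact p1.isK.str_ptset j.2 hs2)
      (by
        intro h hh
        constructor
        · intro h4; exact absurd h4 (p1.isK.no_edge_ptset j.1 hh)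
        · intro h4
          refine absurd h4 (p1.isK.no_edge_ptset j.2 ?_)
          rw [← hg0s]
          exact smul_finset_subset_smul_finset_iff.2 hh)
      (fun i => ⟨(mem_ptset _ _).2 ⟨i, rfl⟩, hg0a i⟩)
      (by rw [h3]; exact empty_subset _)
      (by rw [h3]; intro u hu; exact absurd hu (notMem_empty u))
    refine ⟨q, h1.trans k1, by rw [k2]; exact hF, ?_⟩
    intro i
    rw [k3, k4]
    exact ⟨(mem_ptset _ _).2 ⟨i, rfl⟩, hg0a i⟩
  · exact ⟨p1, h1, hF, h3⟩

theorem dense3 {t m : ℕ} (hm : 1 ≤ m) (p : Cond t m) (j : J t) (F : Finset U) : ∃ q, p ≤ q ∧ F ⊆ q.D j := by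
  obtain ⟨p1, h1, h2, h3⟩ := activate p j F
  obtain ⟨V', H', g', r1, r2, r3, r4, r5, r6, r7⟩ :=
    ext_lemma hm p1.isK _ (p1.D j) (p1.g j) le_rfl (p1.srt j) (p1.strD j) (p1.strR j) (p1.iso j)
  obtain ⟨p2, k1, k2, k3, k4, k5⟩ := p1.grow r1 r2 r3
  obtain ⟨q, m1, m2, m3, m4, m5⟩ := p2.upd j (D' := p1.V) (g' := g') r4
    (by rw [k2, k3]; exact r2) (by rw [k2, k3]; exact r6)
    (by rw [k3]; exact r7)
    (by
      intro i
      refine ⟨(p1.strD j).1 (h3 i).1, ?_⟩
      rw [r5 _ (h3 i).1]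
      exact (h3 i).2)
    (by rw [k4]; exact (p1.strD j).1)
    (by rw [k4, k5]; exact r5)
  exact ⟨q, h1.trans (k1.trans m1), by rw [m4]; exact h2⟩

theorem dense4 {t m : ℕ} (hm : 1 ≤ m) (p : Cond t m) (j : J t) (F : Finset U) :
    ∃ q, p ≤ q ∧ F ⊆ q.g j • q.D j := by
  obtain ⟨p1, h1, h2, h3⟩ := activate p j F
  have e1 : (p1.g j)⁻¹ • (p1.g j • p1.D j) = p1.D j := inv_smul_smul _ _
  obtain ⟨V', H', k, r1, r2, r3, r4, r5, r6, r7⟩ :=
    ext_lemma hm p1.isK _ (p1.g j • p1.D j) (p1.g j)⁻¹ le_rfl (p1.srt j).inv (p1.strR j)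
      (by rw [e1]; exact p1.strD j)
      (by
        intro h hh
        have e2 : p1.g j • ((p1.g j)⁻¹ • h) = h := smul_inv_smul _ _
        rw [← e2, smul_finset_subset_smul_finset_iff] at hh
        have e3 := p1.iso j _ hh
        rw [e2] at e3
        exact e3.symm)
  have e4 : k⁻¹ • (k • p1.V) = p1.V := inv_smul_smul _ _
  have e5 : ∀ u ∈ p1.D j, u ∈ k • p1.V ∧ k⁻¹ u = p1.g j u := by
    intro u hu
    have e6 : p1.g j u ∈ p1.g j • p1.D j := by rw [mem_smul_iff]; exact hu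
    have e7 : k (p1.g j u) = u := by
      rw [r5 _ e6]
      exact (p1.g j).symm_apply_apply u
    refine ⟨?_, ?_⟩
    · have e8 : k (p1.g j u) ∈ k • p1.V := by
        rw [mem_smul_iff]; exact (p1.strR j).1 e6
      rw [e7] at e8
      exact e8
    · have e9 : k⁻¹ (k (p1.g j u)) = p1.g j u := k.symm_apply_apply _
      rw [e7] at e9
      exact e9
  obtain ⟨p2, k1, k2, k3, k4, k5⟩ := p1.grow r1 r2 r3
  obtain ⟨q, m1, m2, m3, m4, m5⟩ := p2.upd j (D' := k • p1.V) (g' := k⁻¹) r4.inv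
    (by rw [k2, k3]; exact r6) (by rw [k2, k3, e4]; exact r2)
    (by
      rw [k3]
      intro h hh
      have e2 : k • (k⁻¹ • h) = h := smul_inv_smul _ _
      have e3 : k⁻¹ • h ⊆ p1.V := by
        rw [← e2, smul_finset_subset_smul_finset_iff] at hh
        exact hh
      have e6 := r7 _ e3
      rw [e2] at e6
      exact e6.symm)
    (by
      intro i
      have e6 := e5 _ (h3 i).1
      refine ⟨e6.1, ?_⟩
      rw [e6.2]
      exact (h3 i).2)
    (by rw [k4]; exact fun u hu => (e5 u hu).1)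
    (by rw [k4, k5]; exact fun u hu => (e5 u hu).2)
  exact ⟨q, h1.trans (k1.trans m1), by rw [m4, m5, e4]; exact h2⟩

/-- the empty condition -/
def p0 (t m : ℕ) : Cond t m where
  V := ∅
  H := ∅
  D := fun _ => ∅
  g := fun _ => 1
  isK := isK_empty t m ∅
  srt := fun _ _ => rfl
  strD := fun _ => Str.refl _ _ _
  strR := fun _ => by rw [smul_finset_empty]; exact Str.refl _ _ _
  iso := fun _ h _ => by simp
  act := fun _ => Or.inl rfl

/-- the tasks -/
abbrev Task (t : ℕ) := Finset U ⊕ Finset U ⊕ (J t × Finset U) ⊕ (J t × Finset U)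

def goal {t m : ℕ} : Task t → Set (Cond t m)
  | Sum.inl F => {p | F ⊆ p.V}
  | Sum.inr (Sum.inl W) => {p | wt m W = t → (cls W).card ≤ 1 → ∃ h ∈ p.H, W ⊆ h}
  | Sum.inr (Sum.inr (Sum.inl (j, F))) => {p | F ⊆ p.D j}
  | Sum.inr (Sum.inr (Sum.inr (j, F))) => {p | F ⊆ p.g j • p.D j}

theorem goal_cofinal {t m : ℕ} (hm : 1 ≤ m) (i : Task t) (p : Cond t m) : ∃ q ∈ goal i, p ≤ q := by
  rcases i with F | W | ⟨j, F⟩ | ⟨j, F⟩
  · obtain ⟨q, h1, h2⟩ := dense1 p F; exact ⟨q, h2, h1⟩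
  · by_cases hW : wt m W = t ∧ (cls W).card ≤ 1
    · obtain ⟨q, h1, h2⟩ := dense2 hm p W hW.1 hW.2; exact ⟨q, fun _ _ => h2, h1⟩
    · exact ⟨p, fun h1 h2 => absurd ⟨h1, h2⟩ hW, le_rfl⟩
  · obtain ⟨q, h1, h2⟩ := dense3 hm p j F; exact ⟨q, h2, h1⟩
  · obtain ⟨q, h1, h2⟩ := dense4 hm p j F; exact ⟨q, h2, h1⟩

theorem exists_generic (t m : ℕ) (hm : 1 ≤ m) : ∃ I : Set (Cond t m), (∀ p ∈ I, ∀ q ∈ I, ∃ r ∈ I, p ≤ r ∧ q ≤ r) ∧
    ∀ i : Task t, ∃ p ∈ I, p ∈ goal i := by
  classical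
  have hc : Countable (Fin (t + 1) ↪ ℕ) :=
    Function.Injective.countable (f := fun (a : Fin (t + 1) ↪ ℕ) => (a : Fin (t + 1) → ℕ))
      DFunLike.coe_injective
  let _ : Encodable (J t) := Encodable.ofCountable _
  let 𝒟 : Task t → Order.Cofinal (Cond t m) := fun i => ⟨goal i, fun p => by
    obtain ⟨q, h1, h2⟩ := goal_cofinal hm i p; exact ⟨q, h1, h2⟩⟩
  refine ⟨(Order.idealOfCofinals (p0 t m) 𝒟 : Order.Ideal (Cond t m)), ?_, ?_⟩
  · intro p hp q hq
    exact (Order.idealOfCofinals (p0 t m) 𝒟).directed p hp q hq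
  · intro i
    obtain ⟨x, h1, h2⟩ := Order.cofinal_meets_idealOfCofinals (p0 t m) 𝒟 i
    exact ⟨x, h2, h1⟩

theorem core (t m : ℕ) (hm : 1 ≤ m) : ∃ E : Set (Finset U),
    (∀ h ∈ E, (pts h).card = t ∧ (cls h).card = 1) ∧
    (∀ W : Finset U, wt m W = t → (cls W).card ≤ 1 → ∃ h ∈ E, W ⊆ h) ∧
    (∀ h ∈ E, ∀ h' ∈ E, t ≤ wt m (h ∩ h') → h = h') ∧
    ∀ j : J t, ∃ F : Equiv.Perm U, Srt F ∧ (∀ h : Finset U, F • h ∈ E ↔ h ∈ E) ∧
      ∀ i, F (Sum.inl (j.1 i)) = Sum.inl (j.2 i) := by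
  obtain ⟨I, hdir, hgen⟩ := exists_generic t m hm
  let E : Set (Finset U) := {h | ∃ p ∈ I, h ∈ p.H}
  have hE : ∀ p ∈ I, ∀ h, h ⊆ p.V → (h ∈ E ↔ h ∈ p.H) := by
    intro p hp h hh
    constructor
    · rintro ⟨q, hq, hhq⟩
      obtain ⟨r, _, hpr, hqr⟩ := hdir p hp q hq
      exact (hpr.1 h hh).2 ((hqr.1 h (q.isK.sub h hhq)).1 hhq)
    · intro h1; exact ⟨p, hp, h1⟩
  refine ⟨E, ?_, ?_, ?_, ?_⟩
  · rintro h ⟨p, _, hh⟩
    exact ⟨p.isK.pcard h hh, p.isK.ccard h hh⟩
  · intro W hW hp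
    obtain ⟨p, h1, h2⟩ := hgen (Sum.inr (Sum.inl W))
    obtain ⟨h, h3, h4⟩ := h2 hW hp
    exact ⟨h, ⟨p, h1, h3⟩, h4⟩
  · rintro h ⟨p, hp, hh⟩ h' ⟨q, hq, hh'⟩ hw
    obtain ⟨r, _, hpr, hqr⟩ := hdir p hp q hq
    exact r.isK.lin h ((hpr.1 h (p.isK.sub h hh)).1 hh) h' ((hqr.1 h' (q.isK.sub h' hh')).1 hh') hw
  · intro j
    -- a condition whose domain contains a given finite set
    have hdom : ∀ F : Finset U, ∃ p ∈ I, F ⊆ p.D j := fun F =>
      hgen (Sum.inr (Sum.inr (Sum.inl (j, F))))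
    have hran : ∀ F : Finset U, ∃ p ∈ I, F ⊆ p.g j • p.D j := fun F =>
      hgen (Sum.inr (Sum.inr (Sum.inr (j, F))))
    choose P hPI hP using hdom
    let f : U → U := fun u => (P {u}).g j u
    have hf : ∀ p ∈ I, ∀ u ∈ p.D j, f u = p.g j u := by
      intro p hp u hu
      obtain ⟨r, _, h1, h2⟩ := hdir p hp _ (hPI {u})
      have h3 := (h1.2.2 j).2 u hu
      have h4 := (h2.2.2 j).2 u (hP {u} (mem_singleton_self u))
      show (P {u}).g j u = p.g j u
      rw [← h4, h3]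
    have hinj : Function.Injective f := by
      intro u v huv
      have h1 : u ∈ (P {u, v}).D j := hP {u, v} (by simp)
      have h2 : v ∈ (P {u, v}).D j := hP {u, v} (by simp)
      rw [hf _ (hPI _) u h1, hf _ (hPI _) v h2] at huv
      exact ((P {u, v}).g j).injective huv
    have hsurj : Function.Surjective f := by
      intro w
      obtain ⟨p, hp, h1⟩ := hran {w}
      have h2 : w ∈ p.g j • p.D j := h1 (mem_singleton_self w)
      obtain ⟨u, rfl⟩ := (p.g j).surjective w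
      rw [mem_smul_iff] at h2
      exact ⟨u, hf p hp u h2⟩
    let F : Equiv.Perm U := Equiv.ofBijective f ⟨hinj, hsurj⟩
    have hF : ∀ p ∈ I, ∀ h, h ⊆ p.D j → F • h = p.g j • h := by
      intro p hp h hh
      apply image_congr
      intro x hx
      exact hf p hp x (hh hx)
    refine ⟨F, ?_, ?_, ?_⟩
    · intro u
      exact (P {u}).srt j u
    · intro h
      have h1 := hP h
      have h2 := ((P h).strD j).1
      have h3 := ((P h).strR j).1
      rw [hF _ (hPI h) h h1, hE _ (hPI h) h (h1.trans h2),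
        hE _ (hPI h) _ ((smul_finset_subset_smul_finset_iff.2 h1).trans h3)]
      exact ((P h).iso j h h1).symm
    · intro i
      have h1 := hP {Sum.inl (j.1 i)}
      have h2 : Sum.inl (j.1 i) ∈ (P {Sum.inl (j.1 i)}).D j := h1 (mem_singleton_self _)
      rcases (P {Sum.inl (j.1 i)}).act j with h3 | h3
      · rw [h3] at h2; exact absurd h2 (notMem_empty _)
      · exact (h3 i).2

end Pool.Agent.Y135.SS
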