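import Mathlib

open Finset
open scoped Pointwise

namespace Pool.Agent.Y135.SS

/-- vertices: `Sum.inl x` is the point `x`, `Sum.inr i` is the colour `i`. -/
abbrev U := ℕ ⊕ ℕ

/-- the points of a finite vertex set -/
def pts (S : Finset U) : Finset U := S.filter (fun u => u.isLeft = true)

/-- the colours of a finite vertex set -/
def cls (S : Finset U) : Finset U := S.filter (fun u => u.isLeft = false)

/-- number of edges inside `S` -/
def e (H : Finset (Finset U)) (S : Finset U) : ℕ := (H.filter (fun h => h ⊆ S)).card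

/-- the weight of a vertex set: points count `1`, colours count `m` -/
def wt (m : ℕ) (S : Finset U) : ℕ := (pts S).card + m * (cls S).card

/-- the weight of the edges inside `S` -/
def me (m : ℕ) (H : Finset (Finset U)) (S : Finset U) : ℕ := m * e H S

/-- predimension -/
def dl (m : ℕ) (H : Finset (Finset U)) (S : Finset U) : ℤ := (wt m S : ℤ) - (me m H S : ℤ)

theorem pts_mono {S T : Finset U} (h : S ⊆ T) : pts S ⊆ pts T := filter_subset_filter _ h
theorem cls_mono {S T : Finset U} (h : S ⊆ T) : cls S ⊆ cls T := filter_subset_filter _ h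
theorem pts_sub (S : Finset U) : pts S ⊆ S := filter_subset _ _
theorem cls_sub (S : Finset U) : cls S ⊆ S := filter_subset _ _
theorem pts_union (S T : Finset U) : pts (S ∪ T) = pts S ∪ pts T := filter_union _ _ _
theorem cls_union (S T : Finset U) : cls (S ∪ T) = cls S ∪ cls T := filter_union _ _ _
theorem pts_inter (S T : Finset U) : pts (S ∩ T) = pts S ∩ pts T := filter_inter_distrib _ _ _
theorem cls_inter (S T : Finset U) : cls (S ∩ T) = cls S ∩ cls T := filter_inter_distrib _ _ _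

theorem pts_add (S T : Finset U) :
    (pts (S ∪ T)).card + (pts (S ∩ T)).card = (pts S).card + (pts T).card := by
  rw [pts_union, pts_inter]; exact card_union_add_card_inter _ _

theorem cls_add (S T : Finset U) :
    (cls (S ∪ T)).card + (cls (S ∩ T)).card = (cls S).card + (cls T).card := by
  rw [cls_union, cls_inter]; exact card_union_add_card_inter _ _

theorem wt_add (m : ℕ) (S T : Finset U) :
    wt m (S ∪ T) + wt m (S ∩ T) = wt m S + wt m T := by
  have h1 := pts_add S T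
  have h2 := cls_add S T
  have h3 : m * (cls (S ∪ T)).card + m * (cls (S ∩ T)).card =
      m * (cls S).card + m * (cls T).card := by rw [← mul_add, h2, mul_add]
  unfold wt
  omega

theorem wt_mono (m : ℕ) {S T : Finset U} (h : S ⊆ T) : wt m S ≤ wt m T := by
  have h1 := card_le_card (pts_mono h)
  have h2 := Nat.mul_le_mul_left m (card_le_card (cls_mono h))
  unfold wt
  omega

theorem pts_le_wt (m : ℕ) (S : Finset U) : (pts S).card ≤ wt m S := Nat.le_add_right _ _

theorem pts_union_cls (S : Finset U) : pts S ∪ cls S = S := by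
  ext x
  unfold pts cls
  rw [mem_union, mem_filter, mem_filter]
  cases x <;> simp

theorem eq_of_sub_wt {m : ℕ} (hm : 1 ≤ m) {S T : Finset U} (h : S ⊆ T) (hw : wt m T ≤ wt m S) :
    S = T := by
  have h1 := card_le_card (pts_mono h)
  have h2 := card_le_card (cls_mono h)
  have h3 := Nat.mul_le_mul_left m h2
  unfold wt at hw
  have h4 : (pts T).card ≤ (pts S).card := by omega
  have h5 : m * (cls T).card ≤ m * (cls S).card := by omega
  have h6 : (cls T).card ≤ (cls S).card := Nat.le_of_mul_le_mul_left h5 hm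
  have h7 := eq_of_subset_of_card_le (pts_mono h) h4
  have h8 := eq_of_subset_of_card_le (cls_mono h) h6
  rw [← pts_union_cls S, h7, h8, pts_union_cls]

theorem wt_sdiff (m : ℕ) (S T : Finset U) : wt m (S \ T) + wt m (S ∩ T) = wt m S := by
  have h1 := wt_add m (S \ T) (S ∩ T)
  have h2 : (S \ T) ∪ (S ∩ T) = S := sdiff_union_inter S T
  have h3 : (S \ T) ∩ (S ∩ T) = ∅ := by
    ext x; simp only [mem_inter, mem_sdiff, notMem_empty, iff_false]; tauto
  have h4 : wt m (∅ : Finset U) = 0 := by unfold wt pts cls; simp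
  rw [h2, h3, h4] at h1
  omega

theorem pts_sdiff (S T : Finset U) : (pts (S \ T)).card + (pts (S ∩ T)).card = (pts S).card := by
  have h1 := pts_add (S \ T) (S ∩ T)
  have h2 : (S \ T) ∪ (S ∩ T) = S := sdiff_union_inter S T
  have h3 : (S \ T) ∩ (S ∩ T) = ∅ := by
    ext x; simp only [mem_inter, mem_sdiff, notMem_empty, iff_false]; tauto
  have h4 : (pts (∅ : Finset U)).card = 0 := by unfold pts; simp
  rw [h2, h3, h4] at h1
  omega

theorem cls_sdiff (S T : Finset U) : (cls (S \ T)).card + (cls (S ∩ T)).card = (cls S).card := by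
  have h1 := cls_add (S \ T) (S ∩ T)
  have h2 : (S \ T) ∪ (S ∩ T) = S := sdiff_union_inter S T
  have h3 : (S \ T) ∩ (S ∩ T) = ∅ := by
    ext x; simp only [mem_inter, mem_sdiff, notMem_empty, iff_false]; tauto
  have h4 : (cls (∅ : Finset U)).card = 0 := by unfold cls; simp
  rw [h2, h3, h4] at h1
  omega

theorem e_submod (H : Finset (Finset U)) (S T : Finset U) :
    e H S + e H T ≤ e H (S ∪ T) + e H (S ∩ T) := by
  unfold e
  have h1 : H.filter (fun h => h ⊆ S) ∩ H.filter (fun h => h ⊆ T)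
      = H.filter (fun h => h ⊆ S ∩ T) := by
    ext h; simp only [mem_inter, mem_filter, subset_inter_iff]; tauto
  have h2 : H.filter (fun h => h ⊆ S) ∪ H.filter (fun h => h ⊆ T)
      ⊆ H.filter (fun h => h ⊆ S ∪ T) := by
    intro h hh
    simp only [mem_union, mem_filter] at hh ⊢
    rcases hh with hh | hh
    · exact ⟨hh.1, hh.2.trans subset_union_left⟩
    · exact ⟨hh.1, hh.2.trans subset_union_right⟩
  have h3 := card_union_add_card_inter (H.filter (fun h => h ⊆ S)) (H.filter (fun h => h ⊆ T))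
  have h4 := card_le_card h2
  rw [h1] at h3
  omega

theorem me_submod (m : ℕ) (H : Finset (Finset U)) (S T : Finset U) :
    me m H S + me m H T ≤ me m H (S ∪ T) + me m H (S ∩ T) := by
  unfold me
  rw [← mul_add, ← mul_add]
  exact Nat.mul_le_mul_left _ (e_submod H S T)

theorem dl_submod (m : ℕ) (H : Finset (Finset U)) (S T : Finset U) :
    dl m H (S ∪ T) + dl m H (S ∩ T) ≤ dl m H S + dl m H T := by
  have h1 := me_submod m H S T
  have h2 := wt_add m S T
  unfold dl
  omega

/-- `A` is strong in `V` -/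
def Str (m : ℕ) (H : Finset (Finset U)) (A V : Finset U) : Prop :=
  A ⊆ V ∧ ∀ S, A ⊆ S → S ⊆ V → dl m H A ≤ dl m H S

theorem Str.refl (m : ℕ) (H : Finset (Finset U)) (A : Finset U) : Str m H A A := by
  refine ⟨Subset.refl _, ?_⟩
  intro S h1 h2
  rw [Subset.antisymm h1 h2]

theorem Str.inter {m : ℕ} {H : Finset (Finset U)} {A V : Finset U} (h : Str m H A V)
    {S : Finset U} (hS : S ⊆ V) : dl m H (A ∩ S) ≤ dl m H S := by
  have h1 := dl_submod m H A S
  have h2 := h.2 (A ∪ S) subset_union_left (union_subset h.1 hS)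
  omega

theorem Str.trans {m : ℕ} {H : Finset (Finset U)} {A V W : Finset U} (h : Str m H A V)
    (h' : Str m H V W) : Str m H A W := by
  refine ⟨h.1.trans h'.1, ?_⟩
  intro S h1 h2
  have h3 := h'.inter h2
  have h4 := h.2 (V ∩ S) (subset_inter h.1 h1) inter_subset_left
  omega

/-- two edge sets agree inside `V` -/
def Agr (H H' : Finset (Finset U)) (V : Finset U) : Prop := ∀ h, h ⊆ V → (h ∈ H ↔ h ∈ H')

theorem Agr.e {H H' : Finset (Finset U)} {V : Finset U} (h : Agr H H' V) {S : Finset U}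
    (hS : S ⊆ V) : e H S = e H' S := by
  unfold Pool.Agent.Y135.SS.e
  congr 1
  ext x
  rw [mem_filter, mem_filter]
  constructor
  · rintro ⟨h1, h2⟩; exact ⟨(h x (h2.trans hS)).1 h1, h2⟩
  · rintro ⟨h1, h2⟩; exact ⟨(h x (h2.trans hS)).2 h1, h2⟩

theorem Agr.dl {m : ℕ} {H H' : Finset (Finset U)} {V : Finset U} (h : Agr H H' V) {S : Finset U}
    (hS : S ⊆ V) : dl m H S = dl m H' S := by
  unfold Pool.Agent.Y135.SS.dl Pool.Agent.Y135.SS.me
  rw [h.e hS]

theorem Agr.str {m : ℕ} {H H' : Finset (Finset U)} {V : Finset U} (h : Agr H H' V) {A : Finset U}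
    (hA : Str m H A V) : Str m H' A V := by
  refine ⟨hA.1, ?_⟩
  intro S h1 h2
  rw [← h.dl h2, ← h.dl hA.1]
  exact hA.2 S h1 h2

/-- the class of finite structures -/
structure IsK (t m : ℕ) (V : Finset U) (H : Finset (Finset U)) : Prop where
  sub : ∀ h ∈ H, h ⊆ V
  pcard : ∀ h ∈ H, (pts h).card = t
  ccard : ∀ h ∈ H, (cls h).card = 1
  lin : ∀ h ∈ H, ∀ h' ∈ H, t ≤ wt m (h ∩ h') → h = h'
  dim : ∀ S, S ⊆ V → t + 1 ≤ (pts S).card → (t : ℤ) + 1 ≤ dl m H S

theorem wt_edge {t m : ℕ} {h : Finset U} (hp : (pts h).card = t) (hc : (cls h).card = 1) :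
    wt m h = t + m := by
  unfold wt
  rw [hp, hc, mul_one]

theorem IsK.e_le_one {t m : ℕ} {V : Finset U} {H : Finset (Finset U)} (hK : IsK t m V H)
    {S : Finset U} (hS : (pts S).card ≤ t) : e H S ≤ 1 := by
  apply card_le_one.2
  intro a ha b hb
  rw [mem_filter] at ha hb
  have h1 : pts a = pts S := eq_of_subset_of_card_le (pts_mono ha.2) (by rw [hK.pcard a ha.1]; exact hS)
  have h2 : pts b = pts S := eq_of_subset_of_card_le (pts_mono hb.2) (by rw [hK.pcard b hb.1]; exact hS)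
  apply hK.lin a ha.1 b hb.1
  have h3 := pts_le_wt m (a ∩ b)
  rw [pts_inter, h2, ← h1, inter_self, hK.pcard a ha.1] at h3
  exact h3

theorem dim_of_e_le_two {t m : ℕ} {H : Finset (Finset U)}
    (hlin : ∀ h ∈ H, ∀ h' ∈ H, t ≤ wt m (h ∩ h') → h = h')
    (hpcard : ∀ h ∈ H, (pts h).card = t) (hccard : ∀ h ∈ H, (cls h).card = 1)
    {S : Finset U} (hS : t + 1 ≤ (pts S).card) (he : e H S ≤ 2) : (t : ℤ) + 1 ≤ dl m H S := by
  suffices hmain : t + 1 + me m H S ≤ wt m S by
    unfold dl; omega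
  unfold me wt
  by_cases hle : e H S ≤ (cls S).card
  · have := Nat.mul_le_mul_left m hle
    omega
  · push Not at hle
    have h1 : 1 ≤ (cls S).card := by
      have h3 : (H.filter (fun h => h ⊆ S)).Nonempty := by
        rw [← card_pos]; exact lt_of_le_of_lt (Nat.zero_le _) hle
      obtain ⟨h, hh⟩ := h3
      rw [mem_filter] at hh
      have h4 := card_le_card (cls_mono hh.2)
      rw [hccard h hh.1] at h4
      exact h4
    have h2 : e H S = 2 := by omega
    have hc1 : (cls S).card = 1 := by omega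
    have h3 : 1 < (H.filter (fun h => h ⊆ S)).card := by
      have : (H.filter (fun h => h ⊆ S)).card = 2 := h2
      omega
    obtain ⟨a, b, ha, hb, hab⟩ := one_lt_card_iff.1 h3
    rw [mem_filter] at ha hb
    have h4 : cls a = cls S := eq_of_subset_of_card_le (cls_mono ha.2) (by rw [hccard a ha.1, hc1])
    have h5 : cls b = cls S := eq_of_subset_of_card_le (cls_mono hb.2) (by rw [hccard b hb.1, hc1])
    have h6 : (cls (a ∩ b)).card = 1 := by rw [cls_inter, h4, h5, inter_self, hc1]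
    have h7 : wt m (a ∩ b) < t := by
      by_contra hcon
      exact hab (hlin a ha.1 b hb.1 (not_lt.1 hcon))
    unfold wt at h7
    rw [h6] at h7
    have h8 := pts_add a b
    rw [hpcard a ha.1, hpcard b hb.1] at h8
    have h9 := card_le_card (pts_mono (union_subset ha.2 hb.2))
    rw [h2, hc1]
    omega

section amalgam

variable {t m : ℕ} {V1 V2 : Finset U} {H1 H2 : Finset (Finset U)}

theorem agr_left (hK2 : IsK t m V2 H2) (hag : Agr H1 H2 (V1 ∩ V2)) : Agr H1 (H1 ∪ H2) V1 := by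
  intro h hh
  constructor
  · intro h1; exact mem_union_left _ h1
  · intro h1
    rcases mem_union.1 h1 with h1 | h1
    · exact h1
    · exact (hag h (subset_inter hh (hK2.sub h h1))).2 h1

theorem agr_right (hK1 : IsK t m V1 H1) (hag : Agr H1 H2 (V1 ∩ V2)) : Agr H2 (H1 ∪ H2) V2 := by
  intro h hh
  constructor
  · intro h1; exact mem_union_right _ h1
  · intro h1
    rcases mem_union.1 h1 with h1 | h1
    · exact (hag h (subset_inter (hK1.sub h h1) hh)).1 h1
    · exact h1

theorem e_union (hK1 : IsK t m V1 H1) (hK2 : IsK t m V2 H2) (hag : Agr H1 H2 (V1 ∩ V2))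
    (S : Finset U) :
    e (H1 ∪ H2) S + e H1 (S ∩ (V1 ∩ V2)) = e H1 (S ∩ V1) + e H2 (S ∩ V2) := by
  unfold e
  have h1 : (H1.filter (fun h => h ⊆ S ∩ V1)) ∪ (H2.filter (fun h => h ⊆ S ∩ V2))
      = (H1 ∪ H2).filter (fun h => h ⊆ S) := by
    ext h
    simp only [mem_union, mem_filter, subset_inter_iff]
    constructor
    · rintro (h1 | h1)
      · exact ⟨Or.inl h1.1, h1.2.1⟩
      · exact ⟨Or.inr h1.1, h1.2.1⟩
    · rintro ⟨h1 | h1, h2⟩
      · exact Or.inl ⟨h1, h2, hK1.sub h h1⟩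
      · exact Or.inr ⟨h1, h2, hK2.sub h h1⟩
  have h2 : (H1.filter (fun h => h ⊆ S ∩ V1)) ∩ (H2.filter (fun h => h ⊆ S ∩ V2))
      = H1.filter (fun h => h ⊆ S ∩ (V1 ∩ V2)) := by
    ext h
    simp only [mem_inter, mem_filter, subset_inter_iff]
    constructor
    · rintro ⟨⟨h1, h2, h3⟩, ⟨h4, h5, h6⟩⟩
      exact ⟨h1, h2, h3, h6⟩
    · rintro ⟨h1, h2, h3, h4⟩
      exact ⟨⟨h1, h2, h3⟩, (hag h (subset_inter h3 h4)).1 h1, h2, h4⟩
  rw [← h1, ← h2]
  exact card_union_add_card_inter _ _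

theorem dl_union (hK1 : IsK t m V1 H1) (hK2 : IsK t m V2 H2) (hag : Agr H1 H2 (V1 ∩ V2))
    {S : Finset U} (hS : S ⊆ V1 ∪ V2) :
    dl m (H1 ∪ H2) S + dl m H1 (S ∩ (V1 ∩ V2)) = dl m H1 (S ∩ V1) + dl m H2 (S ∩ V2) := by
  have h1 : me m (H1 ∪ H2) S + me m H1 (S ∩ (V1 ∩ V2)) =
      me m H1 (S ∩ V1) + me m H2 (S ∩ V2) := by
    unfold me
    rw [← mul_add, ← mul_add, e_union hK1 hK2 hag S]
  have h2 := wt_add m (S ∩ V1) (S ∩ V2)
  have h3 : (S ∩ V1) ∪ (S ∩ V2) = S := by
    rw [← inter_union_distrib_left]; exact inter_eq_left.2 hS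
  have h4 : (S ∩ V1) ∩ (S ∩ V2) = S ∩ (V1 ∩ V2) := by
    ext x; simp only [mem_inter]; tauto
  rw [h3, h4] at h2
  unfold dl
  omega

theorem free_amalgam (hK1 : IsK t m V1 H1) (hK2 : IsK t m V2 H2) (hag : Agr H1 H2 (V1 ∩ V2))
    (hs1 : Str m H1 (V1 ∩ V2) V1) (hs2 : Str m H2 (V1 ∩ V2) V2)
    (hno : ∀ h ∈ H1, ∀ h' ∈ H2, t ≤ wt m (h ∩ h') → h ⊆ V1 ∩ V2 ∨ h' ⊆ V1 ∩ V2) :
    IsK t m (V1 ∪ V2) (H1 ∪ H2) ∧ Str m (H1 ∪ H2) V1 (V1 ∪ V2) ∧
      Str m (H1 ∪ H2) V2 (V1 ∪ V2) := by
  have hag1 := agr_left hK2 hag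
  have hag2 := agr_right hK1 hag
  -- bounds on dl
  have key1 : ∀ S, S ⊆ V1 ∪ V2 → dl m H1 (S ∩ V1) ≤ dl m (H1 ∪ H2) S := by
    intro S hS
    have h1 := dl_union hK1 hK2 hag hS
    have h2 := hs2.inter (S := S ∩ V2) inter_subset_right
    have h3 : (V1 ∩ V2) ∩ (S ∩ V2) = S ∩ (V1 ∩ V2) := by
      ext x; simp only [mem_inter]; tauto
    rw [h3, ← hag.dl inter_subset_right] at h2
    omega
  have key2 : ∀ S, S ⊆ V1 ∪ V2 → dl m H2 (S ∩ V2) ≤ dl m (H1 ∪ H2) S := by
    intro S hS
    have h1 := dl_union hK1 hK2 hag hS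
    have h2 := hs1.inter (S := S ∩ V1) inter_subset_right
    have h3 : (V1 ∩ V2) ∩ (S ∩ V1) = S ∩ (V1 ∩ V2) := by
      ext x; simp only [mem_inter]; tauto
    rw [h3] at h2
    omega
  have hlin12 : ∀ h ∈ H1, ∀ h' ∈ H2, t ≤ wt m (h ∩ h') → h = h' := by
    intro h hh h' hh' hw
    rcases hno h hh h' hh' hw with h1 | h1
    · exact hK2.lin h ((hag h h1).1 hh) h' hh' hw
    · exact hK1.lin h hh h' ((hag h' h1).2 hh') hw
  have hlin : ∀ h ∈ H1 ∪ H2, ∀ h' ∈ H1 ∪ H2, t ≤ wt m (h ∩ h') → h = h' := by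
    intro h hh h' hh' hw
    rcases mem_union.1 hh with hh | hh <;> rcases mem_union.1 hh' with hh' | hh'
    · exact hK1.lin h hh h' hh' hw
    · exact hlin12 h hh h' hh' hw
    · exact (hlin12 h' hh' h hh (by rw [inter_comm]; exact hw)).symm
    · exact hK2.lin h hh h' hh' hw
  have hpcard : ∀ h ∈ H1 ∪ H2, (pts h).card = t := by
    intro h hh
    rcases mem_union.1 hh with hh | hh
    · exact hK1.pcard h hh
    · exact hK2.pcard h hh
  have hccard : ∀ h ∈ H1 ∪ H2, (cls h).card = 1 := by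
    intro h hh
    rcases mem_union.1 hh with hh | hh
    · exact hK1.ccard h hh
    · exact hK2.ccard h hh
  refine ⟨⟨?_, hpcard, hccard, hlin, ?_⟩, ⟨subset_union_left, ?_⟩, ⟨subset_union_right, ?_⟩⟩
  · intro h hh
    rcases mem_union.1 hh with hh | hh
    · exact (hK1.sub h hh).trans subset_union_left
    · exact (hK2.sub h hh).trans subset_union_right
  · intro S hS hp
    rcases Nat.lt_or_ge t (pts (S ∩ V1)).card with h1 | h1
    · have h2 := hK1.dim (S ∩ V1) inter_subset_right h1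
      have h3 := key1 S hS
      omega
    · rcases Nat.lt_or_ge t (pts (S ∩ V2)).card with h2 | h2
      · have h3 := hK2.dim (S ∩ V2) inter_subset_right h2
        have h4 := key2 S hS
        omega
      · have h3 := hK1.e_le_one h1
        have h4 := hK2.e_le_one h2
        have h5 := e_union hK1 hK2 hag S
        exact dim_of_e_le_two hlin hpcard hccard hp (by omega)
  · intro S h1 h2
    have h3 := key1 S h2
    rw [inter_eq_right.2 h1] at h3
    rw [← hag1.dl (Subset.refl _)]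
    exact h3
  · intro S h1 h2
    have h3 := key2 S h2
    rw [inter_eq_right.2 h1] at h3
    rw [← hag2.dl (Subset.refl _)]
    exact h3

end amalgam

end Pool.Agent.Y135.SS
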